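import Pool.Agent.H945.Om1
import Pool.Agent.H945.Om2

set_option autoImplicit false

/-!
# 1-motives and complex conjugation: abelian surfaces with `End = ℤ`, and K3 surfaces of Picard number 17

Let `M = [ℤ^R → G]` be a 1-motive over the field `ℚ̄` of algebraic numbers, where `G` is an extension of an abelian variety `A`
by `𝔾ₘ^J`, given by points `Q_j ∈ A(ℚ̄)` (`j ∈ J`) with logarithms `q_j`, and the 1-motive is given by points `P̃_r ∈ G(ℚ̄)`
(`r ∈ R`) over points `P_r ∈ A(ℚ̄)` with logarithms `u_r`. Every 1-motive over `ℚ̄` has this form. The abelian variety `A`, of
dimension `g`, is given by theta functions (`AbVar`, `Pool.Agent.Y102.AVDefs`, where it is explained why every abelian variety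
over `ℚ̄` has this description), and the periods of `M` are the entries of the matrix `periodMatrix` with the rows

* `(λ_{ik} | η_{ik} | ∑_k (f_{jk} λ_{ik} - η_{ik} q_{jk}) | 0)` for a suitable lift to `G` of the cycle `i` of `A`;
* `(0 | 0 | 2πi δ_{jj'} | 0)` for the circles of the torus;
* `(u_{rk} | e_{rk} | L_{rj} | δ_{rr'})` for a path from `0` to `P̃_r` in `G`,

and the columns: the differentials of the first kind `dz_k`, of the second kind `d (∂_k log θ₀)`, of the third kind
`d log (θ₀(z - q_j) / θ₀(z)) + ∑_k f_{jk} dz_k`, and the differentials of degree zero. The points `P_r`, `Q_j` can be arbitrary; if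
they satisfy relations, the paths and the differentials are normalised in such a way that the vectors `(u_r, e_r)`, `(q_j, f_j)`
satisfy the same relations (hypothesis `hn`; this can always be achieved by an isogeny of `M` and a change of the
algebraic bases, see the theorem AllOneMotives of the library of earlier results, from which all definitions about
1-motives are copied).

Grothendieck's conjecture predicts that the smallest torsor over `ℚ̄` which contains the comparison isomorphism and whose
group is defined over `ℚ` (the de Rham-Betti torsor `Ω^dRB(M)`) is the torsor of motivic periods `Ω^mot(M)`. By AllOneMotives the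
unipotent radicals of the groups of these torsors are always the same, so that the question is about `A`. It was
answered for maximal real multiplication (RealMultOneMotives), and for abelian varieties of spin type of ranks `r ≠ 5`
(KugaSatakeOneMotives). Already for one abelian surface with `End(A) = ℤ`, for example for the curves of genus two with
`End(J(C)) = ℤ` and their open or singular variants, nothing was known: one could not exclude that the de Rham-Betti group of `A`
is `GL(2)`, acting by the third symmetric power. We exclude it if there is an isogeny `φ` from the complex conjugate `Ā` to `A`
with `φ φ̄ < 0`.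

**Conjugations** (`IsConjugation`). Let `φ` be a homomorphism from `Ā` to `A`. The composition `F` of complex conjugation and `φ` is
an endomorphism of `H_1(A, ℚ)`, antilinear on the tangent space, and the complex conjugates of the periods of `F γ` are
combinations of the periods of `γ` with algebraic coefficients; `F² = φ φ̄ ∈ End(A) ⊗ ℚ`.

**The hypothesis on `A`** (`HasType`). We assume that `A` is of one of the following two types.

* `SmallType`: `A` has no factor of type IV, the common eigenspaces of the centre of `End(A) ⊗ ℚ` on `H_1(A, ℂ)` have dimension at
  most four, and for each of dimension four on which all endomorphisms are scalars there is a conjugation `F` which commutes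
  with the central endomorphisms, is self-adjoint for the polarization, and has `F² ≠ 0` on the eigenspace. Here `A` can be a
  product of pairwise non-isogenous simple abelian varieties of arbitrary dimension with real multiplication of
  relative dimension one or two (for those of relative dimension two an `F_0`-linear isogeny `φ : Ā → A` with totally
  negative `φ φ̄` is needed, for example for surfaces with `End = ℤ`), and of abelian varieties with quaternionic multiplication;
  `F` is extended by zero to the other factors. No hypothesis is made about eigenspaces of dimension two, or with
  endomorphisms which are not scalars.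
* `ReflectionType`: the Lie algebra `𝔤 ⊗ ℂ` of the Hodge group is contained in a sum of orthogonal Lie algebras `so(r_σ)` of ranks
  `r_σ ≥ 5`, acting by spin representations, and generates the same associative algebra; and there is a bijective conjugation
  which acts on the vectors of each of them as a reflection up to sign. These are the Kuga-Satake varieties of
  polarised Hodge structures `T` of K3 type (K3 surfaces and hyperkähler varieties over real number fields, with totally real
  endomorphism fields `F_0`) such that complex conjugation acts on `T` with an eigenspace of dimension one over
  `F_0`; new is the rank `dim T = 5`, for example K3 surfaces of Picard number 17 if `F_0 = ℚ`.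

**The Lie algebra of the motivic Galois group.** The motivic Galois group of a 1-motive is its Mumford-Tate group (Brylinski,
André). Let `𝔤` be the Lie algebra of the endomorphisms of `H_1(A, ℚ)` that annihilate all classes in `H^1(A) ^ {⊗ 2m} (m)` which
are at the same time Hodge classes and de Rham-Betti classes (`InLie`). By the theorem of Deligne all Hodge classes are
de Rham-Betti classes, so that `𝔤` is the Lie algebra of the Hodge group of `A`. With the structure of the unipotent
radical (Ribet, Bertrand, Bertolin, Jossen, see `AllOneMotives`) one finds that the Lie algebra of the motivic Galois group consists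
of the block matrices `(X, z, 0; 0, μ, 0; Y, w, 0)` such that

* `X - μ / 2` is in `𝔤 ⊗ ℂ`;
* `z` consists of the columns `γ ↦ ω(Z_j, γ)` for the Riemann form `ω`, and `(Y, Z)` satisfies all relations
`∑ E_r P_r + ∑ E'_j Q_j = 0`, `E_r, E'_j ∈ End A`;
* `∑ χ_{rj} w_{rj} = n μ` for all central `χ` with `∑ χ_{rj} ℓ_{rj} = 2πi n`, `n ∈ ℤ`. Here `ℓ` is the part of weight `-2` of the
logarithm of the period matrix, and an integral matrix `χ` is central if `∑ χ_{rj} c_{rj} = 0` for all commutators `c`. For central
`χ` the number `exp (∑ χ_{rj} ℓ_{rj})` is algebraic (it is the value of a section of a trivial line bundle at the point).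

This is `motivicLie` for the set of pairs `(χ, n)` as above.

**Theorem.** Let `A` be of one of the two types, and let `T` be a `ℚ̄`-subtorsor of `Iso(M_dR, M_B)` which contains the period
matrix and whose group (the matrices `x y⁻¹`, `x, y ∈ T`) is defined over `ℚ`. Then `T` is stable under `exp W` for all `W` in the
Lie algebra of the motivic Galois group (2). So `T` contains the torsor of motivic periods; in particular
`Ω^dRB(M) = Ω^mot(M)`, and every de Rham-Betti class of every motive in the tensor category generated by `M` is motivated. (1) is
a statement for arbitrary complex numbers `L_{rj}`. (3) If `A` is of small type then `𝔤` is the Lie algebra of the Lefschetz group: it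
consists of all `X` which commute with the endomorphisms of `A` and are skew-symmetric for the polarization.

For example this holds for `H^1(C ∖ D, E)` and `H^1_c`, for all finite sets of points `D`, `E` over `ℚ̄`, where `C` is one of the
curves of genus two of Shimura with a real field of moduli which are not definable over `ℝ`,
`y² = - ā₀ x⁶ + ā₁ x⁵ - ā₂ x⁴ + a₃ x³ + a₂ x² + a₁ x + a₀`, `a₃` real, `a_i ∈ ℚ̄`, `End(J(C)) = ℤ` (the map
`(x, y) ↦ (- 1 / x, i y / x³)` to the conjugate curve has `φ φ̄ = - 1` on the Jacobian), and for disjoint unions of such curves and of
curves of genus one, and so for all integrals of algebraic functions on such curves.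

## The proof

Let `𝔪` be the Lie algebra of endomorphisms of `H_1(A, ℚ)` generated by the rational components `X(D, λ)` of the logarithmic
derivatives of the period matrix of `A`, divided by `(2πi)^{1/2}`, for the derivations `D` of `ℂ` over `ℚ̄`. By the library (files
`X306`) the Lie algebra of the group of `T` contains `𝔪` in weight zero, the homotheties, and the rational families `(Y, Z)` with
the relations, and everything in weight `-2` which is possible. So we have to show `𝔪 = 𝔤` (`HasType.NA_le`).

For the small type we have proved this in the theorem PowersAndConjugation of `MP_bf54cf_ag` (`lef_le`): `X(D, λ) F = F X(D̄, λ̄)`,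
so the `X ∈ 𝔪` for which there is an `Y ∈ 𝔪` with `X F = F Y`, `Y F = F X` form a Lie algebra `𝔪'` which contains all `X(D, λ)`, and by
the theorem of Schneider and Lang it acts semisimply with the commutant `End(A)`. If `𝔪` acts on an irreducible subspace
`N` of dimension four by the third symmetric power of `sl(2)` then for such `X`, `Y` the element `Z = X - Y` anticommutes with `F`, `F Z` is
a self-adjoint operator on the symplectic space `N` of dimension four, hence it satisfies an equation of degree two, and it
follows that `Z²` is a scalar on `N`, which implies `Z = 0`; so `F` commutes with `𝔪'` on `N` and is a scalar, in contradiction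
to its antilinearity. For the reflection type the equation `𝔪 = 𝔤` is proved in the theorem ReflectionConjugation of
`MP_f11a48_ag` (`Dat.all`): a Lie subalgebra of `so(T)` which generates the even Clifford algebra and is stable under conjugation
with a unit vector is `so(T)`.
-/

open Matrix Pool.Agent.Y102 Pool.Agent.H945.Om

noncomputable section

namespace Pool.Agent.Results.MP_5d33ca_ag.OneMotivesAndConjugation

variable {g : ℕ} {R : Type} [Fintype R] [DecidableEq R] {J : Type} [Fintype J] [DecidableEq J]

/-- **1-motives and complex conjugation.** `A` is an abelian variety over the algebraic numbers, of small type or of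
reflection type, defined over the number field `F` together with its endomorphisms; the `u r` and `q j` are logarithms of
arbitrary points `P_r`, `Q_j` of `A(F)`, the vectors `(u r, e r)` and `(q j, f j)` are normalised: they satisfy the relations of
the points. Let `T` be a subtorsor over the algebraic numbers which contains the period matrix and whose group is defined
over `ℚ`. -/
theorem result (A : AbVar g) (hA : HasType A)
    (F : IntermediateField ℚ ℂ) (hF : DefinedOver A F) (u e : R → Fin g → ℂ)
    (hu : ∀ r, u r ∈ points A F) (q f : J → Fin g → ℂ) (hq : ∀ j, q j ∈ points A F)
    (hn : IsRelated A u q (coordinates A u e) (coordinates A q f)) (L : Matrix R J ℂ)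
    (T : Set (Matrix (Idx g R J) (Idx g R J) ℂ)) (hT : IsTorsor T) (hG : GroupOverQ T)
    (hc : periodMatrix A u e q f L ∈ T) :
    -- 1: arbitrary `L`
    (∀ W ∈ motivicLie A u q {s | IsCentral A u q s.1 ∧
        IsAlgebraic ℚ (pairing s.1 (logarithm u e q f L) - (s.2 : ℂ) * (2 * Real.pi * Complex.I))},
      ∀ x ∈ T, NormedSpace.exp W * x ∈ T) ∧
    -- 2: the 1-motives over the algebraic numbers
    ((∀ χ, IsCentral A u q χ → IsAlgebraic ℚ (Complex.exp (pairing χ (logarithm u e q f L)))) →
      ∀ W ∈ motivicLie A u q {s | IsCentral A u q s.1 ∧
        pairing s.1 (logarithm u e q f L) = (s.2 : ℂ) * (2 * Real.pi * Complex.I)},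
      ∀ x ∈ T, NormedSpace.exp W * x ∈ T) ∧
    -- 3: the Lie algebra for the small type
    (SmallType A → ∀ X, InLie A X ↔ IsSkewSymmetric A X ∧ Commutes A X) := by
  obtain ⟨h1, h2⟩ := main_of_le A hA.NA_le F hF u e hu q f hq hn L T hT hG hc
  exact ⟨h1, h2, fun h X => h.lie_iff X⟩

end Pool.Agent.Results.MP_5d33ca_ag.OneMotivesAndConjugation
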