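import Pool.Agent.H936.W.Om2
import Pool.Agent.H936.Y.FinV
import Pool.Agent.H936.X.Comb

/-!
# 1-motives over products of Jacobians of the curves `y² = f(x) (x - c / b)`: the de Rham-Betti torsor is motivic

Let `f ∈ ℤ[x]` be monic of degree `2 g ≥ 4` with `2 g` distinct real roots which are not zero, and **even**, or such that the Jacobian
of the curve `y² = x f(x)` is special (`Special`: for example it has an endomorphism which is not an integer). We consider the
curves

  `C : y² = f(x) (x - c / b)` of genus `g`,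

**all** 1-motives over number fields of bounded degree whose abelian part is isogenous to a product of powers of their Jacobians, for
**all** such `f` at the same time and **all** rational numbers `c / b` near `0`.

**The 1-motives.** Let `M = [ℤ^R → G]` be a 1-motive, where `G` is an extension of an abelian variety `A` by `𝔾ₘ^J`, given by
points `Q_j` (`j ∈ J`) of `A` over a number field with logarithms `q_j`, and points `P̃_r` of `G` (`r ∈ R`) over points `P_r` of
`A` with logarithms `u_r`. Every 1-motive over a number field has this form over a finite extension. `A` is given by theta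
functions (`AbVar`, `Pool.Agent.Y102.AVDefs`). The periods of `M` are the entries of `periodMatrix` with the rows

* `(λ_{ik} | η_{ik} | ∑_k (f_{jk} λ_{ik} - η_{ik} q_{jk}) | 0)` for a suitable lift to `G` of the cycle `i` of `A`;
* `(0 | 0 | 2πi δ_{jj'} | 0)` for the circles of the torus;
* `(u_{rk} | e_{rk} | L_{rj} | δ_{rr'})` for a path from `0` to `P̃_r` in `G`,

and the columns: the differentials of the first kind `dz_k`, of the second kind `d (∂_k log θ₀)`, of the third kind
`d log (θ₀(z - q_j) / θ₀(z)) + ∑_k f_{jk} dz_k`, and the differentials of degree zero. The points can be arbitrary; if they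
satisfy relations, the paths and the differentials are normalised in such a way that the vectors `(u_r, e_r)`, `(q_j, f_j)`
satisfy the same relations. If `M` is defined over the number field `K`, a basis over `K` of the de Rham realisation which
respects the weights is given by a matrix `b` of algebraic numbers (`IsBasis`), and `c = periodMatrix * b` is the period
matrix of `M` for this basis, a point of the torsor `Iso (M_dR, M_B)` over `K`.

**The Lie algebra of the motivic Galois group.** The motivic Galois group of a 1-motive is its Mumford-Tate group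
(Brylinski, André). Its Lie algebra consists of the block matrices `(X, z, 0; 0, μ, 0; Y, w, 0)` such that

* the transpose of `X` is in `μ / 2 + 𝔤 ⊗ ℂ`, where `𝔤` is the Lie algebra of the endomorphisms of `H_1(A, ℚ)` which annihilate
  all classes in `H^1(A) ^ {⊗ 2m} (m)` that are Hodge classes and de Rham-Betti classes (by the theorem of Deligne this is the
  Lie algebra of the Hodge group);
* `z` consists of the columns `γ ↦ ω(Z_j, γ)` for the Riemann form `ω`, and `(Y, Z)` satisfies all relations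
  `∑ E_r P_r + ∑ E'_j Q_j = 0`, `E_r, E'_j ∈ End A`;
* `∑ χ_{rj} w_{rj} = n μ` for all central `χ` with `∑ χ_{rj} ℓ_{rj} = 2πi n`, `n ∈ ℤ`. Here `ℓ` is the part of weight `-2` of the
  logarithm of the period matrix, and an integral matrix `χ` is central if `∑ χ_{rj} c_{rj} = 0` for all commutators `c`. For
  central `χ` the number `exp (∑ χ_{rj} ℓ_{rj})` is algebraic (the value of a section of a trivial line bundle at the point).

This is `motivicLie` for the set of pairs `(χ, n)` as above.

**Theorem.** For all `g ≥ 2`, `N`, `D` there is `E` such that the following holds for all integers `H ≥ 2`, `h`, `w` and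
`b₀ ≥ (H + h + w)^E`, **all** `f_1, …, f_N` as above with coefficients of absolute value at most `H`, **all** integers
`c_j ≠ 0` with `|c_j| ≤ h`, **all** `b_j` in `[b₀, b₀ + w]` with `|b_i - b_j| ≥ (H + h)^E` for `i ≠ j`: the roots of
`f_j(x) (x - c_j / b_j)` are real and distinct; and for **all** 1-motives `M` over number fields `K`, `[K : ℚ] ≤ D`, whose abelian
part `A` is isogenous over `K` to a product of Jacobians of the curves `C_j : y² = f_j(x) (x - c_j / b_j)`, with arbitrary
multiplicities (`IsProduct`; there is no bound for the dimension of `A` and for the ranks of `ℤ^R` and `𝔾ₘ^J`, the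
points and the extensions are arbitrary), and all `K`-subtorsors `S` of `Iso (M_dR, M_B)` which contain `c` and whose group (the
matrices `x y⁻¹`, `x, y ∈ S`) is defined over `ℚ` (for example the smallest one, the de Rham-Betti torsor of `M` over `K`): `S` is
stable under `exp W` for all `W` in the Lie algebra of the motivic Galois group of `M`. So `S` contains the torsor of motivic
periods of `M` over `ℚ̄`: the de Rham-Betti group of `M` has the dimension `dim G_mot(M)` which the conjecture predicts for the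
transcendence degree, and all de Rham-Betti classes of all motives over `K` in the tensor category generated by `M` are
motivic over `ℚ̄`. There are no exceptions, and nothing is assumed about monodromy or G-functions.

**Comparison.** Until now theorems on 1-motives (in the library and in this run) needed special Hodge groups of the
abelian part, or assumed the conjecture for the abelian part, or (my `OneMotivesOverFibres`) treated the fibres of one abstract
family of G-functions with big monodromy, with an exceptional fibre for each window or under an assumption on the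
central fibre, and all fibres near the same central fibre. Here the class of abelian varieties is explicit, uniform
in `f`, and the fibres are near different special varieties.

**Proof.** (`Pool/Agent/H936/W`, `X`, `Y`.) The projection of `S` to the pure part need not be closed, and the conjecture for the
pure part is known only for torsors over number fields of bounded degree. So we work with the subspace `V` of the pure parts of
those elements of the Lie algebra of `S` which respect the decomposition of the pure part into fibres (`W/Gr`). It is closed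
under commutators, has a rational structure and is stable under conjugation by `K`-linear maps in the de Rham coordinates; its
projections to the fibres have nondegenerate trace forms (theorem of Schneider and Lang in the form of Bost, positivity of the
polarisations). In the ultraproduct of a sequence of counterexamples there are derivations which move only the period matrix of
one fibre, in an arbitrary direction of `𝔰𝔭` (`H885.curveP`: linear independence of values of G-functions, uniform in the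
families); the constants of the special central fibres normalise proper subalgebras `𝔩_j` of `𝔰𝔭`, and since `𝔰𝔭` is not the
sum of such a normaliser and of a second one, `V` contains the symplectic algebras of all fibres (`X/Chain`, `X/UltV`, `X/FinV`).
The families `y² = f(x) (x - t)` satisfy the assumptions, uniformly in `f` (`Y`), and for even `f` the central fibre has an
automorphism of order four. The homotheties split the lifts, and then the theorem follows from the structure of the
Lie algebra for 1-motives (`X306/AV`: the theorem of Schneider and Lang, Lang's theorem on algebraic points, the theorem of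
Hermite and Lindemann).

Nothing is assumed about periods: `AbVar` is the description of an abelian variety over `ℚ̄` by theta functions
(`Pool/Agent/Y102/AVDefs.lean` explains why every abelian variety has it), and the assumption `Presents` says that the Jacobians
of the curves are given in this way, with the period matrices of the forms `x^j dx / y`, `j < 2 g`; this is true for all the
curves which appear here, by the classical theory.
-/

set_option autoImplicit false
set_option linter.unusedSectionVars false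

open Filter
open scoped Matrix

open Matrix

noncomputable section

namespace Pool.Agent.Results.MP_5d33ca_ag.OneMotivesHyperelliptic

open Pool.Agent.Y102 (AbVar riemannForm pd QBar)
open Pool.Agent.W516.DR Pool.Agent.H204R3.GP

/-! ### Hyperelliptic curves -/

section curves

/-- `e_0 < e_1 < … < e_n` are the roots of `F`, `F = ∏ (x - e_i)`: the finite branch points of the curve `y² = F(x)` -/
def BranchPoints {n : ℕ} (F : Polynomial ℝ) (e : Fin n → ℝ) : Prop :=
  StrictMono e ∧ F = ∏ i, (Polynomial.X - Polynomial.C (e i))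

/-- the period `2 ∫ x^j dx / y` of the curve `y² = ∏ (x - e_i)`, the integral over the segment between `e_l` and `e_(l+1)` -/
def curvePeriod {n : ℕ} (e : Fin (n + 1) → ℝ) (l j : Fin n) : ℂ :=
  2 * ∫ x in (e l.castSucc)..(e l.succ), (x : ℂ) ^ (j : ℕ) / (((∏ i, (x - e i) : ℝ) : ℂ) ^ (1 / 2 : ℂ))

/-- the period matrix of the curve `y² = ∏ (x - e_i)`, `0 ≤ i ≤ n = 2 g`: the rows are the cycles over the segments between
the branch points, the columns are the forms `x^j dx / y`, `j < n`, a basis of `H^1_dR` -/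
def curvePeriods {n : ℕ} (e : Fin (n + 1) → ℝ) : Matrix (Fin n) (Fin n) ℂ := Matrix.of (curvePeriod e)

/-- the intersection form of the cycles, up to a factor: `2 (-1)^r` at `(r, s)` with `|r - s| = 1` -/
def polB (n : ℕ) : Matrix (Fin n) (Fin n) ℚ :=
  Matrix.of fun r s => if (r : ℕ) = s + 1 ∨ (s : ℕ) = r + 1 then 2 * (-1) ^ (r : ℕ) else 0

end curves

/-! ### Abelian varieties -/

/-- rational matrices as complex matrices -/
def toC {n : ℕ} (M : Matrix (Fin n) (Fin n) ℚ) : Matrix (Fin n) (Fin n) ℂ := M.map fun x : ℚ => (x : ℂ)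

section abelian
variable {g : ℕ} (A : AbVar g)

/-- The matrix of the periods of `A`: the integrals over the basis of the lattice of the invariant differentials `d z k`
and of the differentials of the second kind `d (∂ k (log θ 0))`, a basis of `H^1_dR (A / ℚ̄)`. -/
def periods : Matrix (Fin (2 * g)) (Fin g ⊕ Fin g) ℂ := Matrix.of fun a i => A.dR i (Pi.single a 1)

/-- `P` is the matrix of the comparison isomorphism `H^1_dR → H^1_B` of `A` for some basis `R` of the rational homology, in
which the Riemann form has the matrix `H` up to a rational factor, and some basis of the de Rham cohomology over `ℚ̄`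
(given by `T`). -/
def Presents (H : Matrix (Fin (2 * g)) (Fin (2 * g)) ℚ) (P : Matrix (Fin (2 * g)) (Fin (2 * g)) ℂ) : Prop :=
  ∃ (R : Matrix (Fin (2 * g)) (Fin (2 * g)) ℚ) (T : Matrix (Fin g ⊕ Fin g) (Fin (2 * g)) ℂ) (q : ℚ),
    IsUnit R ∧ IsUnit P ∧ (∀ i j, IsAlgebraic ℚ (T i j)) ∧ q ≠ 0 ∧ P = toC R * periods A * T ∧
    ∀ a b, ∑ c, ∑ d, (R a c : ℂ) * riemannForm A.lam A.η (A.lam c) (A.lam d) * (R b d : ℂ) = (q : ℂ) * (H a b : ℂ)

end abelian

/-! ### Torsors -/

/-- `S` is (the set of complex points of) a `K`-subtorsor of `GL_B = Iso (M_dR, M_B)`: it is closed under `x y⁻¹ z`, and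
it is defined in `GL_B` by polynomials with coefficients in `K`. -/
def IsSubtorsor (K : Subfield ℂ) {B : Type} [Fintype B] [DecidableEq B] (S : Set (Matrix B B ℂ)) : Prop :=
  (∀ x ∈ S, ∀ y ∈ S, ∀ z ∈ S, x * y⁻¹ * z ∈ S) ∧ ∃ I : Set (MvPolynomial (B × B) K), ∀ x : Matrix B B ℂ, x ∈ S ↔
    IsUnit x ∧ ∀ p ∈ I, MvPolynomial.eval (fun b => x b.1 b.2) (MvPolynomial.map (algebraMap K ℂ) p) = 0

/-- The group of the torsor `S` on the Betti side, the set of the `x y⁻¹` with `x`, `y` in `S`, is defined over `ℚ`: it is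
stable under all automorphisms of the field of complex numbers. -/
def RationalGroup {B : Type} [Fintype B] [DecidableEq B] (S : Set (Matrix B B ℂ)) : Prop :=
  ∀ σ : ℂ ≃+* ℂ, ∀ x ∈ S, ∀ y ∈ S, ∃ x' ∈ S, ∃ y' ∈ S, (x * y⁻¹).map σ = x' * y'⁻¹

/-! ### Special abelian varieties -/

section centre
variable {n : ℕ}

/-- The abelian variety is special over a field `K` of degree at most `D`: it has an endomorphism, given by a rational matrix
`α` on `H_1`, which is not a rational number and is defined over `K` on the de Rham side; or there is a `K`-subtorsor `S` of the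
torsor of all isomorphisms from `H^1_dR` to `H^1_B` which contains the matrix `C` of the periods, whose group is defined over
`ℚ`, and which is not stable under the symplectic group of `H`. -/
def Special (D : ℕ) (H : Matrix (Fin n) (Fin n) ℚ) (C : Matrix (Fin n) (Fin n) ℂ) : Prop :=
  ∃ K : Subfield ℂ, FiniteDimensional ℚ K ∧ Module.finrank ℚ K ≤ D ∧
    ((∃ α : Matrix (Fin n) (Fin n) ℚ, (∀ c : ℚ, α ≠ c • 1) ∧ ∀ i j, (C⁻¹ * toC α * C) i j ∈ K) ∨
    ∃ S : Set (Matrix (Fin n) (Fin n) ℂ), IsSubtorsor K S ∧ RationalGroup S ∧ C ∈ S ∧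
      ∃ γ : Matrix (Fin n) (Fin n) ℂ, γ * toC H * γᵀ = toC H ∧ ∃ x ∈ S, γ * x ∉ S)

end centre

/-! ### 1-motives -/

section motives

/-- The rows (Betti side): the `2g` cycles of `A`, lifted to `G`, the circles of the torus, and the paths from `0` to the
points of `G`. The columns (de Rham side) have the same indices. -/
abbrev Idx (g : ℕ) (R J : Type) : Type := (Fin (2 * g) ⊕ J) ⊕ R

variable {g : ℕ} {R : Type} [Fintype R] [DecidableEq R] {J : Type} [Fintype J] [DecidableEq J]

/-- The block matrix `(X, z, 0; 0, μ, 0; Y, w, κ)`. -/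
def block (X : Matrix (Fin (2 * g)) (Fin (2 * g)) ℂ) (z : Matrix (Fin (2 * g)) J ℂ) (μ : ℂ)
    (Y : Matrix R (Fin (2 * g)) ℂ) (w : Matrix R J ℂ) (κ : ℂ) : Matrix (Idx g R J) (Idx g R J) ℂ :=
  fromBlocks (fromBlocks X z 0 (μ • 1)) 0 (fromCols Y w) (κ • 1)

/-- The index set `Fin (2 * g)` of the de Rham basis of `A`: first the `g` differentials `d z_k` of the first kind, then the
`g` differentials `d (∂_k log θ₀)` of the second kind. -/
def split (g : ℕ) : Fin (2 * g) ≃ Fin g ⊕ Fin g := (finCongr (two_mul g)).trans finSumFinEquiv.symm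

variable (A : AbVar g)

/-- The period matrix of `A`. -/
def abelianPeriods : Matrix (Fin (2 * g)) (Fin (2 * g)) ℂ :=
  Matrix.of fun i j => Sum.elim (fun k => A.lam i k) (fun k => A.η i k) (split g j)

/-- The periods of the differentials of the third kind. -/
def thirdPeriods (q f : J → Fin g → ℂ) : Matrix (Fin (2 * g)) J ℂ :=
  Matrix.of fun i j => ∑ k, (f j k * A.lam i k - A.η i k * q j k)

/-- The period matrix of `M`. -/
def periodMatrix (u e : R → Fin g → ℂ) (q f : J → Fin g → ℂ) (L : Matrix R J ℂ) : Matrix (Idx g R J) (Idx g R J) ℂ :=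
  block (abelianPeriods A) (thirdPeriods A q f) (2 * Real.pi * Complex.I)
    (Matrix.of fun r j => Sum.elim (u r) (e r) (split g j)) L 1

/-- The Riemann form on `H_1(A, ℂ)`, in the basis `lam`. -/
def riemann (v w : Fin (2 * g) → ℂ) : ℂ :=
  ∑ a, ∑ b, v a * w b * ((∑ k, (A.η a k * A.lam b k - A.η b k * A.lam a k)) / (2 * Real.pi * Complex.I))

/-- The columns `γ ↦ ω(Z_j, γ)`, for the cycles `γ` of the basis. -/
def columns (Z : J → Fin (2 * g) → ℂ) : Matrix (Fin (2 * g)) J ℂ := Matrix.of fun i j => riemann A (Z j) (Pi.single i 1)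

/-- The lattice of periods of `A`. -/
def lattice : Submodule ℤ (Fin g → ℂ) := Submodule.span ℤ (Set.range A.lam)

/-- The inverse image in `ℂ^g` of `A(F)`. -/
def points (F : IntermediateField ℚ ℂ) : Set (Fin g → ℂ) := {z | ∃ i, A.θ i z ≠ 0 ∧ ∀ j, A.θ j z / A.θ i z ∈ F}

/-- `A`, with its embedding and its endomorphisms, is defined over the number field `F`. -/
structure DefinedOver (F : IntermediateField ℚ ℂ) : Prop where
  numberField : FiniteDimensional ℚ F
  /-- the invariant differentials `d z_k` are defined over `F` -/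
  differentials : ∀ k i j, ∃ a : Fin (A.N + 1) → Fin (A.N + 1) → ℂ, (∀ p q, a p q ∈ F) ∧
    ∀ z, A.θ i z * pd k (A.θ j) z - A.θ j z * pd k (A.θ i) z = ∑ p, ∑ q, a p q * (A.θ p z * A.θ q z)
  /-- the sum of two points over `F` is a point over `F` -/
  add : ∀ z ∈ points A F, ∀ w ∈ points A F, z + w ∈ points A F
  /-- the endomorphisms are defined over `F` -/
  endo : ∀ Q : (Fin g → ℂ) →ₗ[ℂ] (Fin g → ℂ), (∀ w ∈ lattice A, Q w ∈ lattice A) → ∀ z ∈ points A F, Q z ∈ points A F
  /-- the endomorphisms (with matrix `m` for the basis `lam` of the lattice) act on the de Rham cohomology by matrices with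
  algebraic entries -/
  deRham : ∀ (Q : (Fin g → ℂ) →ₗ[ℂ] (Fin g → ℂ)) (m : Matrix (Fin (2 * g)) (Fin (2 * g)) ℤ),
    (∀ j, Q (A.lam j) = ∑ i, (m j i : ℂ) • A.lam i) → ∃ b : Matrix (Fin (2 * g)) (Fin (2 * g)) ℂ,
      (∀ i j, IsAlgebraic ℚ (b i j)) ∧ m.map (Int.cast : ℤ → ℂ) * abelianPeriods A = abelianPeriods A * b

/-- The family `(Y, Z)` of elements of `H_1(A, ℂ)` satisfies all relations `∑ E_r Y_r + ∑ E'_j Z_j = 0` with `E_r, E'_j ∈ End A`
and `∑ E_r P_r + ∑ E'_j Q_j = 0` (`m` are the matrices of the endomorphisms for the basis `lam` of the lattice). -/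
def IsRelated (u : R → Fin g → ℂ) (q : J → Fin g → ℂ) (Y : R → Fin (2 * g) → ℂ) (Z : J → Fin (2 * g) → ℂ) : Prop :=
  ∀ (E : R ⊕ J → (Fin g → ℂ) →ₗ[ℂ] (Fin g → ℂ)) (m : R ⊕ J → Matrix (Fin (2 * g)) (Fin (2 * g)) ℤ),
    (∀ s j, E s (A.lam j) = ∑ i, (m s j i : ℂ) • A.lam i) → ∑ s, E s (Sum.elim u q s) ∈ lattice A →
      ∀ i, ∑ s, ∑ j, Sum.elim Y Z s j * (m s j i : ℂ) = 0

/-- The complex span of the commutators `ω(Z'_j, Y_r) - ω(Z_j, Y'_r)`, for rational families `(Y, Z)`, `(Y', Z')` which satisfy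
the relations. -/
def commutators (u : R → Fin g → ℂ) (q : J → Fin g → ℂ) : Submodule ℂ (Matrix R J ℂ) :=
  Submodule.span ℂ {c | ∃ (Y Y' : R → Fin (2 * g) → ℚ) (Z Z' : J → Fin (2 * g) → ℚ),
    IsRelated A u q (fun r a => Y r a) (fun j a => Z j a) ∧ IsRelated A u q (fun r a => Y' r a) (fun j a => Z' j a) ∧
    c = Matrix.of fun r j =>
      riemann A (fun a => Z' j a) (fun a => Y r a) - riemann A (fun a => Z j a) (fun a => Y' r a)}

/-- The coordinates in `H_1(A, ℂ)` of the vectors `(u_r, e_r)`: the rows `y_r` with `y_r (abelianPeriods A) = (u_r, e_r)`. -/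
def coordinates {S : Type} (u e : S → Fin g → ℂ) : S → Fin (2 * g) → ℂ :=
  fun r => (fun j => Sum.elim (u r) (e r) (split g j)) ᵥ* (abelianPeriods A)⁻¹

/-- The numbers `ℓ_{rj}`: the part of weight `-2` of the logarithm of the period matrix, times `2πi`. -/
def logarithm (u e : R → Fin g → ℂ) (q f : J → Fin g → ℂ) (L : Matrix R J ℂ) : Matrix R J ℂ :=
  Matrix.of fun r j => L r j - (1 / 2) * ∑ k, (f j k * u r k - e r k * q j k)

/-- The sum of the `χ_{rj} w_{rj}`. -/
def pairing (χ : Matrix R J ℤ) (w : Matrix R J ℂ) : ℂ := ∑ r, ∑ j, (χ r j : ℂ) * w r j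

/-- The integral matrices which are zero on the commutators. -/
def IsCentral (u : R → Fin g → ℂ) (q : J → Fin g → ℂ) (χ : Matrix R J ℤ) : Prop :=
  ∀ c ∈ commutators A u q, pairing χ c = 0

/-- The multilinear forms in `2m` variables in the rational homology. -/
abbrev Form (m : ℕ) : Type := MultilinearMap ℚ (fun _ : Fin m × Fin 2 => A.H1) ℚ

/-- `φ` is a de Rham-Betti class in `H^1(A) ^ {⊗ 2m} (m)`. -/
def IsDRB {m : ℕ} (φ : Form A m) : Prop :=
  IsDeRhamBettiForm QBar A.dR (2 * Real.pi * Complex.I) m φ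

/-- `φ` is a Hodge class in `H^1(A) ^ {⊗ 2m} (m)`. -/
def IsHodge {m : ℕ} (φ : Form A m) : Prop := IsHodgeTensor (A.per : A.H1 →+ (Fin g → ℂ)) φ

/-- The endomorphism `X` annihilates the form `φ` (as a derivation). -/
def Annihilates {m : ℕ} (X : Module.End ℚ A.H1) (φ : Form A m) : Prop :=
  ∀ v, ∑ k, φ (Function.update v k (X (v k))) = 0

/-- `X` is in the Lie algebra `𝔤`: it annihilates all classes that are Hodge classes and de Rham-Betti classes. -/
def InLie (X : Module.End ℚ A.H1) : Prop :=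
  ∀ (m : ℕ) (φ : Form A m), IsHodge A φ → IsDRB A φ → Annihilates A X φ

/-- The algebra of the endomorphisms of `H_1(A, ℂ)`, as matrices for the basis of the lattice (acting on columns). -/
abbrev EndC (_ : AbVar g) : Type := Matrix (Fin (2 * g)) (Fin (2 * g)) ℂ

/-- The matrix of the extension of an endomorphism of `H_1(A, ℚ)` to `H_1(A, ℂ)`. -/
def extend (X : Module.End ℚ A.H1) : EndC A := Matrix.of fun i j => (X (Pi.single j 1) i : ℂ)

/-- The complex Lie algebra `𝔤 ⊗ ℂ`, acting on `H_1(A, ℂ)`. -/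
def lieC : Submodule ℂ (EndC A) := Submodule.span ℂ {Y | ∃ X, InLie A X ∧ Y = extend A X}

/-- The Lie algebra given by a set `S` of pairs `(χ, n)`: all block matrices `(X, z, 0; 0, μ, 0; Y, w, 0)` such that the transpose
of `X` is in `μ / 2 + 𝔤 ⊗ ℂ`, `z` is `columns A Z`, `(Y, Z)` satisfies the relations and `∑ χ_{rj} w_{rj} = n μ` for all `(χ, n)`
in `S`. -/
def motivicLie (u : R → Fin g → ℂ) (q : J → Fin g → ℂ) (S : Set (Matrix R J ℤ × ℤ)) :
    Set (Matrix (Idx g R J) (Idx g R J) ℂ) :=
  {W | ∃ X Z μ Y w, Xᵀ - (μ / 2) • 1 ∈ lieC A ∧ IsRelated A u q Y Z ∧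
    (∀ s ∈ S, pairing s.1 w = s.2 * μ) ∧ W = block X (columns A Z) μ (Matrix.of Y) w 0}

/-- The data of a 1-motive over the field `F`: `A` and its endomorphisms are defined over the number field `F`, the `u r` and
`q j` are logarithms of points `P_r`, `Q_j` of `A(F)`, and the vectors `(u r, e r)`, `(q j, f j)` are normalised: they satisfy
the relations of the points. -/
structure IsOneMotive (F : IntermediateField ℚ ℂ) (u e : R → Fin g → ℂ) (q f : J → Fin g → ℂ) : Prop where
  definedOver : DefinedOver A F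
  path : ∀ r, u r ∈ points A F
  extension : ∀ j, q j ∈ points A F
  normalised : IsRelated A u q (coordinates A u e) (coordinates A q f)

/-- `b` is an invertible matrix of algebraic numbers, which respects the weights (the columns of degree zero are
combinations of columns of degree zero, the columns of `H^1(A)` are combinations of these and of the columns of degree
zero), and `b₁` is its part for `H^1(A)`: the columns of `periodMatrix * b` are the periods of another basis of the de Rham
realisation. -/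
def IsBasis {g : ℕ} {R J : Type} [Fintype R] [DecidableEq R] [Fintype J] [DecidableEq J]
    (b : Matrix (Idx g R J) (Idx g R J) ℂ) (b₁ : Matrix (Fin (2 * g)) (Fin (2 * g)) ℂ) : Prop :=
  IsUnit b ∧ (∀ i j, IsAlgebraic ℚ (b i j)) ∧ ∃ b₂ b₃ b₄ b₅ b₆, b = fromBlocks (fromBlocks b₁ b₂ 0 b₃) 0 (fromCols b₄ b₅) b₆

end motives

/-- `A` is isogenous over `K` to the product of the fibres with the period matrices `P (jj i)`, `i = 1, …, m`: in a
suitable rational basis of the homology (`R`) and a suitable basis over `K` of the de Rham cohomology (`U`, while `b₁` is the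
given basis over `K`) the period matrix of `A` is the block diagonal matrix with the blocks `P (jj i)`. -/
def IsProduct (K : Subfield ℂ) {g' n m N : ℕ} (A : AbVar g') (P : Fin N → Matrix (Fin n) (Fin n) ℂ) (jj : Fin m → Fin N)
    (b₁ : Matrix (Fin (2 * g')) (Fin (2 * g')) ℂ) : Prop :=
  ∃ (R : Matrix (Fin n × Fin m) (Fin (2 * g')) ℚ) (R' : Matrix (Fin (2 * g')) (Fin n × Fin m) ℚ)
    (U : Matrix (Fin (2 * g')) (Fin n × Fin m) ℂ) (U' : Matrix (Fin n × Fin m) (Fin (2 * g')) ℂ),
    R * R' = 1 ∧ R' * R = 1 ∧ U * U' = 1 ∧ U' * U = 1 ∧ (∀ i j, U i j ∈ K) ∧ (∀ i j, U' i j ∈ K) ∧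
    R.map (fun x : ℚ => (x : ℂ)) * (abelianPeriods A * b₁) * U = blockDiagonal fun i => P (jj i)

/-- The group of the matrices `x y⁻¹`, `x, y ∈ T`, is defined by polynomials with rational coefficients. -/
def GroupOverQ {B : Type} [Fintype B] [DecidableEq B] (T : Set (Matrix B B ℂ)) : Prop :=
  ∃ I : Set (MvPolynomial (B × B) ℂ), (∀ p ∈ I, ∀ m, ∃ q : ℚ, p.coeff m = q) ∧
    ∀ g : Matrix B B ℂ, (∃ x ∈ T, ∃ y ∈ T, g = x * y⁻¹) ↔ IsUnit g ∧
      ∀ p ∈ I, MvPolynomial.eval (fun b => g b.1 b.2) p = 0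

/-- The conclusion for one tuple of parameters; `P j` is the period matrix of the fibre. For all number fields `K` of degree
at most `D`, all 1-motives whose abelian part is isogenous over `K` to a product of the fibres (with repetitions, `jj`), and
all `K`-subtorsors `S` of `Iso (M_dR, M_B)` which contain the period matrix and whose group is defined over `ℚ`: -/
def Good (D : ℕ) {n N : ℕ} (P : Fin N → Matrix (Fin n) (Fin n) ℂ) : Prop :=
  ∀ K : Subfield ℂ, FiniteDimensional ℚ K → Module.finrank ℚ K ≤ D →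
  ∀ (g' m : ℕ) (jj : Fin m → Fin N) (A : AbVar g') (R J : Type) [Fintype R] [DecidableEq R] [Fintype J] [DecidableEq J]
    (b : Matrix (Idx g' R J) (Idx g' R J) ℂ) (b₁ : Matrix (Fin (2 * g')) (Fin (2 * g')) ℂ), IsBasis b b₁ →
    IsProduct K A P jj b₁ →
  ∀ (F : IntermediateField ℚ ℂ) (u e : R → Fin g' → ℂ) (q f : J → Fin g' → ℂ), IsOneMotive A F u e q f →
  ∀ (L : Matrix R J ℂ) (S : Set (Matrix (Idx g' R J) (Idx g' R J) ℂ)), IsSubtorsor K S → GroupOverQ S →
    periodMatrix A u e q f L * b ∈ S →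
    -- 1: arbitrary `L`
    (∀ W ∈ motivicLie A u q {s | IsCentral A u q s.1 ∧
        IsAlgebraic ℚ (pairing s.1 (logarithm u e q f L) - (s.2 : ℂ) * (2 * Real.pi * Complex.I))},
      ∀ x ∈ S, NormedSpace.exp W * x ∈ S) ∧
    -- 2: the 1-motives over the algebraic numbers
    ((∀ χ, IsCentral A u q χ → IsAlgebraic ℚ (Complex.exp (pairing χ (logarithm u e q f L)))) →
      ∀ W ∈ motivicLie A u q {s | IsCentral A u q s.1 ∧
        pairing s.1 (logarithm u e q f L) = (s.2 : ℂ) * (2 * Real.pi * Complex.I)},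
      ∀ x ∈ S, NormedSpace.exp W * x ∈ S)

/-! ### Auxiliary lemmas -/

theorem map_eq {n : ℕ} (M : Matrix (Fin n) (Fin n) ℚ) : toC M = Pool.Agent.Y119.HY.cm M := by
  ext i j
  rw [Pool.Agent.Y119.HY.cm_apply]
  rfl

theorem pres_of {g : ℕ} {A : AbVar g} {H : Matrix (Fin (2 * g)) (Fin (2 * g)) ℚ}
    {P : Matrix (Fin (2 * g)) (Fin (2 * g)) ℂ} (h : Presents A H P) : ∃ R, Pool.Agent.H936.SL.Pres A H P R := by
  obtain ⟨R, T, q, hR, hP, hT, hq, hPT, hE⟩ := h
  set e := Pool.Agent.R917.eqv g with he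
  set Ts : Matrix (Fin (2 * g)) (Fin (2 * g)) ℂ := T.submatrix e.symm id with hTs
  have h1 : P = Pool.Agent.Y119.HY.cm R * Pool.Agent.R917.PM A * Ts := by
    rw [hPT, map_eq, Matrix.mul_assoc, Matrix.mul_assoc]
    congr 1
    ext a b
    rw [Matrix.mul_apply, Matrix.mul_apply, ← Equiv.sum_comp e]
    refine Finset.sum_congr rfl fun i _ => ?_
    rw [Pool.Agent.R917.PM_apply, hTs, Matrix.submatrix_apply, Equiv.symm_apply_apply]
    rfl
  have h2 : IsUnit Ts.det := by
    have h3 := (Matrix.isUnit_iff_isUnit_det _).1 hP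
    rw [h1, Matrix.det_mul] at h3
    exact isUnit_of_mul_isUnit_right h3
  refine ⟨R, Ts, Ts⁻¹, q, (Matrix.isUnit_iff_isUnit_det _).1 hR, Matrix.mul_nonsing_inv _ h2, fun i j => hT _ _, hq, h1, ?_⟩
  ext a b
  have h3 := hE a b
  have h4 : ∀ c d, riemannForm A.lam A.η (A.lam c) (A.lam d) = ((Pool.Agent.H936.SL.EM A c d : ℚ) : ℂ) := by
    intro c d
    have h5 := A.rf_eq (Pi.single c 1) (Pi.single d 1)
    have h6 : ∀ c : Fin (2 * g), A.per (Pi.single c 1) = A.lam c := by
      intro c
      have h7 := A.per_bas c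
      have h8 : A.bas c = Pi.single c 1 := Pi.basisFun_apply ℚ (Fin (2 * g)) c
      rwa [h8] at h7
    rw [h6, h6] at h5
    exact h5
  simp only [h4] at h3
  have h5 : (((R * Pool.Agent.H936.SL.EM A * Rᵀ) a b : ℚ) : ℂ) = ((q * H a b : ℚ) : ℂ) := by
    push_cast
    rw [← h3, Matrix.mul_apply]
    push_cast
    rw [Finset.sum_comm]
    refine Finset.sum_congr rfl fun d _ => ?_
    rw [Matrix.mul_apply, Matrix.transpose_apply]
    push_cast
    rw [Finset.sum_mul]
  rw [Matrix.smul_apply, smul_eq_mul]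
  exact_mod_cast h5

/-- special abelian varieties -/
theorem special_of {g D : ℕ} (hg : 0 < g) {A₀ : AbVar g} {H : Matrix (Fin (2 * g)) (Fin (2 * g)) ℚ}
    {C : Matrix (Fin (2 * g)) (Fin (2 * g)) ℂ} (hA : Presents A₀ H C) (hHu : IsUnit H) (hH : Hᵀ = -H) (hC : IsUnit C)
    (h : Special D H C) : Pool.Agent.H936.V.SpecialC D H C := by
  have hd := (Matrix.isUnit_iff_isUnit_det _).1 hHu
  have hC' := (Matrix.isUnit_iff_isUnit_det _).1 hC
  obtain ⟨R, hp⟩ := pres_of hA
  obtain ⟨K, hK, hD, h⟩ := h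
  have hKalg : ∀ x ∈ K, IsAlgebraic ℚ x := by
    intro x hx
    have : NumberField K := { to_charZero := inferInstance, to_finiteDimensional := hK }
    have h6 : IsAlgebraic ℚ (⟨x, hx⟩ : K) := Algebra.IsAlgebraic.isAlgebraic _
    exact h6.algebraMap (A := ℂ)
  rcases h with ⟨α, hα, ha⟩ | ⟨S, hS, hSr, hm, γ, hγ, x, hx, hx'⟩
  · simp only [map_eq] at ha
    obtain ⟨S, hS⟩ := Pool.Agent.H936.V.spc_of_mat hg hp hH hd hC' hKalg hα ha
    exact ⟨A₀, R, K, S, hK, hD, hS⟩
  · have hHc := Pool.Agent.H936.G.cm_unit hd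
    have hHct : (Pool.Agent.Y119.HY.cm H)ᵀ = -Pool.Agent.Y119.HY.cm H := by
      rw [← Pool.Agent.Y119.HY.cm_transpose, hH, Pool.Agent.Y119.HY.cm_neg]
    obtain ⟨u, hu, hu'⟩ := Pool.Agent.Y123.GN.quot_GB (X := 1) (Y := γ) (μ := 1)
      (B := Pool.Agent.Y119.HY.cm H) (Q := Pool.Agent.Y119.HY.cm H) one_ne_zero isUnit_one
      (by rw [Matrix.one_mul, Matrix.transpose_one, Matrix.mul_one, one_smul])
      (by rw [one_smul, ← map_eq]; exact hγ) (Or.inl ⟨(Matrix.isUnit_iff_isUnit_det _).2 hHc, hHct⟩)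
    refine ⟨A₀, R, K, S, hK, hD, hKalg, Pool.Agent.Y123.ST.subT_iff.1 hS, hSr, hm, hp, u, hu, x, hx, ?_⟩
    rw [Matrix.mul_one] at hu'
    rw [hu']
    exact hx'

section
variable {g : ℕ} {R : Type} [Fintype R] [DecidableEq R] {J : Type} [Fintype J] [DecidableEq J] (A : AbVar g)

theorem entry_eq (a b : Fin (2 * g)) : (∑ k, (A.η a k * A.lam b k - A.η b k * A.lam a k)) / (2 * Real.pi * Complex.I) =
    ((A.om (A.bas a) (A.bas b) : ℚ) : ℂ) := by
  rw [A.om_pairing]
  simp only [A.eta_bas, A.per_bas]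

theorem columns_eq (Z : J → Fin (2 * g) → ℂ) :
    columns A Z = Pool.Agent.X306.AV.tz A (Matrix.of fun j a => Z j a) := by
  ext i j
  change ∑ a, ∑ b, Z j a * (Pi.single i 1 : Fin (2 * g) → ℂ) b * _ = ∑ a, Z j a * ((A.om (A.bas a) (A.bas i) : ℚ) : ℂ)
  refine Finset.sum_congr rfl fun a _ => ?_
  rw [Finset.sum_eq_single i]
  · rw [Pi.single_eq_same, mul_one, entry_eq]
  · intro b _ hb
    rw [Pi.single_eq_of_ne hb, mul_zero, zero_mul]
  · intro h
    exact absurd (Finset.mem_univ _) h

theorem riemann_rat (v w : Fin (2 * g) → ℚ) :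
    riemann A (fun a => (v a : ℂ)) (fun a => (w a : ℂ)) = ((A.om v w : ℚ) : ℂ) := by
  unfold riemann
  have h1 : ∀ w : Fin (2 * g) → ℚ, w = ∑ a, w a • A.bas a := by
    intro w
    conv_lhs => rw [← A.bas.sum_repr w]
    rfl
  have h2 : A.om v w = ∑ a, ∑ b, v a * (w b * A.om (A.bas a) (A.bas b)) := by
    conv_lhs => rw [h1 v]
    rw [map_sum, LinearMap.sum_apply]
    refine Finset.sum_congr rfl fun a _ => ?_
    rw [map_smul, LinearMap.smul_apply]
    conv_lhs => rw [h1 w]
    rw [map_sum, smul_eq_mul, Finset.mul_sum]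
    refine Finset.sum_congr rfl fun b _ => ?_
    rw [map_smul, smul_eq_mul]
  rw [h2, Rat.cast_sum]
  refine Finset.sum_congr rfl fun a _ => ?_
  rw [Rat.cast_sum]
  refine Finset.sum_congr rfl fun b _ => ?_
  rw [entry_eq, Rat.cast_mul, Rat.cast_mul]
  ring

theorem rel_iff (u : R → Fin g → ℂ) (q : J → Fin g → ℂ) (Y : R → Fin (2 * g) → ℂ) (Z : J → Fin (2 * g) → ℂ) :
    IsRelated A u q Y Z ↔ Pool.Agent.X306.AV.RelN A u q (Sum.elim Y Z) := Iff.rfl

theorem commutators_eq (u : R → Fin g → ℂ) (q : J → Fin g → ℂ) :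
    commutators A u q = Pool.Agent.X306.AV.CmS A u q := by
  have hcast : ∀ (Y : R → Fin (2 * g) → ℚ) (Z : J → Fin (2 * g) → ℚ),
      (Sum.elim (fun r a => ((Y r a : ℚ) : ℂ)) (fun j a => ((Z j a : ℚ) : ℂ)) : R ⊕ J → Fin (2 * g) → ℂ) =
      fun s a => ((Sum.elim Y Z s a : ℚ) : ℂ) := by
    intro Y Z
    funext s a
    rcases s with s | s <;> rfl
  unfold commutators Pool.Agent.X306.AV.CmS
  congr 1
  ext c
  constructor
  · rintro ⟨Y, Y', Z, Z', h, h', rfl⟩
    refine ⟨Sum.elim Y Z, Sum.elim Y' Z', ?_, ?_, ?_⟩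
    · rw [← hcast]
      exact h
    · rw [← hcast]
      exact h'
    · ext r j
      change riemann A _ _ - riemann A _ _ = ((A.om (Z' j) (Y r) - A.om (Z j) (Y' r) : ℚ) : ℂ)
      rw [riemann_rat, riemann_rat, Rat.cast_sub]
  · rintro ⟨N, N', h, h', rfl⟩
    refine ⟨fun r => N (Sum.inl r), fun r => N' (Sum.inl r), fun j => N (Sum.inr j), fun j => N' (Sum.inr j), ?_, ?_, ?_⟩
    · rw [rel_iff, hcast]
      refine (congrArg (Pool.Agent.X306.AV.RelN A u q) ?_).mp h
      funext s a
      rcases s with s | s <;> rfl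
    · rw [rel_iff, hcast]
      refine (congrArg (Pool.Agent.X306.AV.RelN A u q) ?_).mp h'
      funext s a
      rcases s with s | s <;> rfl
    · ext r j
      change ((A.om (N' (Sum.inr j)) (N (Sum.inl r)) - A.om (N (Sum.inr j)) (N' (Sum.inl r)) : ℚ) : ℂ) =
        riemann A _ _ - riemann A _ _
      rw [riemann_rat, riemann_rat, Rat.cast_sub]

theorem PA_eq : abelianPeriods A = Pool.Agent.X306.AV.PA A := by
  ext i j
  change Sum.elim (fun k => A.lam i k) (fun k => A.η i k) (split g j) = A.dR (split g j) (A.bas i)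
  rcases split g j with k | k
  · change A.lam i k = A.per (A.bas i) k
    rw [A.per_bas]
  · change A.η i k = A.eta (A.bas i) k
    rw [A.eta_bas]

theorem coordinates_eq (u e : R → Fin g → ℂ) (q f : J → Fin g → ℂ) :
    Sum.elim (coordinates A u e) (coordinates A q f) = Pool.Agent.X306.AV.Nm A u e q f := by
  funext s
  rcases s with r | j
  · change (fun j => Sum.elim (u r) (e r) (split g j)) ᵥ* (abelianPeriods A)⁻¹ = _
    rw [PA_eq]
    rfl
  · change (fun i => Sum.elim (q j) (f j) (split g i)) ᵥ* (abelianPeriods A)⁻¹ = _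
    rw [PA_eq]
    rfl

theorem logarithm_eq (u e : R → Fin g → ℂ) (q f : J → Fin g → ℂ) (L : Matrix R J ℂ) :
    logarithm u e q f L = Pool.Agent.X306.AV.ell A u e q f L := by
  have h1 : (2 * Real.pi * Complex.I : ℂ) • (Pool.Agent.X306.AV.yM (Pool.Agent.X306.AV.Nm A u e q f) *
      Pool.Agent.X306.AV.tz A (Pool.Agent.X306.AV.zM (Pool.Agent.X306.AV.Nm A u e q f))) =
      (Matrix.of fun r s => Pool.Agent.X306.AV.UU (u r) (e r) ((Pool.Agent.X306.AV.eqv g).symm s)) *
        Pool.Agent.X306.AV.sw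
          (Matrix.of fun j s => Pool.Agent.X306.AV.UU (q j) (f j) ((Pool.Agent.X306.AV.eqv g).symm s)) := by
    rw [← Pool.Agent.X306.AV.yM_PA (A := A) (q := q) (f := f), ← Pool.Agent.X306.AV.zM_PA (A := A) (u := u) (e := e),
      Matrix.mul_assoc, Pool.Agent.X306.AV.PA_sw, Matrix.mul_smul]
  ext r j
  have h2 := congrFun (congrFun h1 r) j
  rw [Matrix.smul_apply, smul_eq_mul, Matrix.mul_apply (M := Matrix.of fun r s => Pool.Agent.X306.AV.UU (u r) (e r)
    ((Pool.Agent.X306.AV.eqv g).symm s)), Pool.Agent.X306.AV.sum_eqv] at h2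
  have h3 : ∑ k, (f j k * u r k - e r k * q j k) = ∑ k, (Matrix.of fun r s => Pool.Agent.X306.AV.UU (u r) (e r)
      ((Pool.Agent.X306.AV.eqv g).symm s)) r (Pool.Agent.X306.AV.eqv g (Sum.inl k)) * Pool.Agent.X306.AV.sw
      (Matrix.of fun j s => Pool.Agent.X306.AV.UU (q j) (f j) ((Pool.Agent.X306.AV.eqv g).symm s))
        (Pool.Agent.X306.AV.eqv g (Sum.inl k)) j + ∑ k, (Matrix.of fun r s => Pool.Agent.X306.AV.UU (u r) (e r)
      ((Pool.Agent.X306.AV.eqv g).symm s)) r (Pool.Agent.X306.AV.eqv g (Sum.inr k)) * Pool.Agent.X306.AV.sw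
      (Matrix.of fun j s => Pool.Agent.X306.AV.UU (q j) (f j) ((Pool.Agent.X306.AV.eqv g).symm s))
        (Pool.Agent.X306.AV.eqv g (Sum.inr k)) j := by
    rw [← Finset.sum_add_distrib]
    refine Finset.sum_congr rfl fun k _ => ?_
    simp only [Pool.Agent.X306.AV.sw, Matrix.of_apply, Equiv.symm_apply_apply, Sum.elim_inl, Sum.elim_inr,
      Pool.Agent.X306.AV.UU]
    ring
  change L r j - (1 / 2) * ∑ k, (f j k * u r k - e r k * q j k) = L r j - ((2 * Real.pi * Complex.I) / 2) * _
  rw [h3, ← h2]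
  ring

theorem third_eq (q f : J → Fin g → ℂ) : thirdPeriods A q f = Pool.Agent.X306.AV.PA A * Pool.Agent.X306.AV.sw
      (Matrix.of fun j s => Pool.Agent.X306.AV.UU (q j) (f j) ((Pool.Agent.X306.AV.eqv g).symm s)) := by
  ext i j
  rw [Matrix.mul_apply, Pool.Agent.X306.AV.sum_eqv]
  change ∑ k, (f j k * A.lam i k - A.η i k * q j k) =
    ∑ k, Pool.Agent.X306.AV.PA A i (Pool.Agent.X306.AV.eqv g (Sum.inl k)) * Sum.elim
      (fun k => Pool.Agent.X306.AV.UU (q j) (f j) ((Pool.Agent.X306.AV.eqv g).symm (Pool.Agent.X306.AV.eqv g (Sum.inr k))))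
      (fun k => -Pool.Agent.X306.AV.UU (q j) (f j) ((Pool.Agent.X306.AV.eqv g).symm (Pool.Agent.X306.AV.eqv g (Sum.inl k))))
      ((Pool.Agent.X306.AV.eqv g).symm (Pool.Agent.X306.AV.eqv g (Sum.inl k))) +
    ∑ k, Pool.Agent.X306.AV.PA A i (Pool.Agent.X306.AV.eqv g (Sum.inr k)) * Sum.elim
      (fun k => Pool.Agent.X306.AV.UU (q j) (f j) ((Pool.Agent.X306.AV.eqv g).symm (Pool.Agent.X306.AV.eqv g (Sum.inr k))))
      (fun k => -Pool.Agent.X306.AV.UU (q j) (f j) ((Pool.Agent.X306.AV.eqv g).symm (Pool.Agent.X306.AV.eqv g (Sum.inl k))))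
      ((Pool.Agent.X306.AV.eqv g).symm (Pool.Agent.X306.AV.eqv g (Sum.inr k)))
  simp only [Equiv.symm_apply_apply, Sum.elim_inl, Sum.elim_inr, Pool.Agent.X306.AV.PA_inl,
    Pool.Agent.X306.AV.PA_inr, A.per_bas, A.eta_bas, Pool.Agent.X306.AV.UU]
  rw [← Finset.sum_add_distrib]
  refine Finset.sum_congr rfl fun k _ => ?_
  ring

theorem period_eq (u e : R → Fin g → ℂ) (q f : J → Fin g → ℂ) (L : Matrix R J ℂ) :
    periodMatrix A u e q f L = Pool.Agent.X306.AV.sm (Pool.Agent.X306.AV.prS u e q f L A) 1 := by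
  have hblock : ∀ X z μ Y w κ, block (g := g) (R := R) (J := J) X z μ Y w κ =
      Pool.Agent.X306.AV.sm (X, z, μ, Y, w) κ := fun X z μ Y w κ => rfl
  unfold periodMatrix
  rw [hblock, PA_eq, third_eq]
  rfl

end

/-- from the Lie algebras to the torsors -/
theorem good_of {g N : ℕ} (hg : 2 ≤ g) {H : Matrix (Fin (2 * g)) (Fin (2 * g)) ℚ} (hHu : IsUnit H) (hHt : Hᵀ = -H) {D : ℕ}
    {P : Fin N → Matrix (Fin (2 * g)) (Fin (2 * g)) ℂ} (hpres : ∀ j, ∃ A : AbVar g, Presents A H (P j))
    (hV : ∀ K : Subfield ℂ, FiniteDimensional ℚ K → Module.finrank ℚ K ≤ D →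
      ∀ V : Submodule ℂ (Matrix (Pool.Agent.Helper880_R3.Ix 1 (2 * g) N) (Pool.Agent.Helper880_R3.Ix 1 (2 * g) N) ℂ),
      Pool.Agent.H936.W.Sp K (Pool.Agent.Y119.HY.cm H⁻¹)
        (Pool.Agent.Helper880_R3.Tot ((2 * Real.pi * Complex.I : ℂ) • (1 : Matrix (Fin 1) (Fin 1) ℂ)) P) V →
      ∀ i, ∀ X ∈ Pool.Agent.Helper880_LF.spS (Pool.Agent.Y119.HY.cm H⁻¹),
        Pool.Agent.Helper880_R3.ib (r₀ := 1) i X ∈ V) : Good D P := by
  intro K hK hKD g' m jj A R J _ _ _ _ b b₁ hb hprod F u e q f hM L S hS hG hc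
  have hHd : IsUnit H.det := (Matrix.isUnit_iff_isUnit_det _).1 hHu
  have hS' := Pool.Agent.Y123.ST.subT_iff.1 hS
  have hKalg : ∀ x ∈ K, IsAlgebraic ℚ x := by
    intro x hx
    have : NumberField K := { to_charZero := inferInstance, to_finiteDimensional := hK }
    have h6 : IsAlgebraic ℚ (⟨x, hx⟩ : K) := Algebra.IsAlgebraic.isAlgebraic _
    exact h6.algebraMap (A := ℂ)
  have hG' : Pool.Agent.X306.RL.GDef Pool.Agent.X306.EM.QQ S := by
    obtain ⟨I, hI1, hI2⟩ := hG
    exact ⟨I, fun p hp m => by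
      obtain ⟨q, hq⟩ := hI1 p hp m
      exact Pool.Agent.X306.EM.mem_QQ.2 ⟨q, hq.symm⟩, hI2⟩
  have hn' : Pool.Agent.X306.AV.RelN A u q (Pool.Agent.X306.AV.Nm A u e q f) := by
    rw [← coordinates_eq]
    exact (rel_iff A u q _ _).1 hM.normalised
  have hF := hM.definedOver
  have hE : Pool.Agent.X306.AV.EndAlg A := by
    rintro m ⟨Q, hQ⟩
    obtain ⟨b, hb, h1⟩ := hF.deRham Q m hQ
    rw [PA_eq] at h1
    exact ⟨b, hb, h1⟩
  have hF' : Pool.Agent.X306.AV.Fld A F := ⟨hF.numberField, hF.differentials, hF.add, hF.endo⟩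
  have hp : ∀ j, ∃ (A : AbVar g) (R : Matrix (Fin (2 * g)) (Fin (2 * g)) ℚ), Pool.Agent.H936.SL.Pres A H (P j) R := by
    intro j
    obtain ⟨A, hA⟩ := hpres j
    obtain ⟨R, hR⟩ := pres_of hA
    exact ⟨A, R, hR⟩
  obtain ⟨hbu, hba, b₂, b₃, b₄, b₅, b₆, hbb⟩ := hb
  have hbu' : IsUnit (Pool.Agent.H936.W.bl b₁ b₂ b₃ b₄ b₅ b₆).det := by
    have h1 := (Matrix.isUnit_iff_isUnit_det _).1 hbu
    rw [hbb] at h1
    exact h1
  have hba' : ∀ i j, IsAlgebraic ℚ (Pool.Agent.H936.W.bl b₁ b₂ b₃ b₄ b₅ b₆ i j) := by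
    intro i j
    have h1 := hba i j
    rw [hbb] at h1
    exact h1
  have hc' : Pool.Agent.X306.AV.sm (Pool.Agent.X306.AV.prS u e q f L A) 1 *
      Pool.Agent.H936.W.bl b₁ b₂ b₃ b₄ b₅ b₆ ∈ S := by
    rw [period_eq, hbb] at hc
    exact hc
  obtain ⟨R₁, R₁', U, U', h1, h2, h3, h4, h5, h6, h7⟩ := hprod
  have hPD : Pool.Agent.H936.W.PD K A H P jj R₁ R₁' U U' b₁ :=
    { md :=
        { r1 := h1
          r2 := h2
          u1 := h3
          u2 := h4
          uK := h5
          uK' := h6
          pu := fun j => by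
            obtain ⟨A, hA⟩ := hpres j
            obtain ⟨-, -, -, -, hA, -⟩ := hA
            exact (Matrix.isUnit_iff_isUnit_det _).1 hA
          eq := by
            rw [← PA_eq]
            exact h7 }
      alg := hKalg
      b1 := by
        rw [show (Pool.Agent.H936.W.bl b₁ b₂ b₃ b₄ b₅ b₆).det = _ from Matrix.det_fromBlocks_zero₁₂ _ _ _,
          Matrix.det_fromBlocks_zero₂₁] at hbu'
        exact isUnit_of_mul_isUnit_left (isUnit_of_mul_isUnit_left hbu')
      b1a := fun i j => hba' (Sum.inl (Sum.inl i)) (Sum.inl (Sum.inl j))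
      leg := fun j => by
        obtain ⟨A, R, hR⟩ := hp j
        obtain ⟨B, q, hB, hq, hl⟩ := hR.leg
        exact ⟨B, q, hB, hq, hl⟩
      det := hHd }
  have main : ∀ W ∈ motivicLie A u q {s | IsCentral A u q s.1 ∧
        IsAlgebraic ℚ (pairing s.1 (logarithm u e q f L) - (s.2 : ℂ) * (2 * Real.pi * Complex.I))},
      ∀ x ∈ S, NormedSpace.exp W * x ∈ S := by
    rintro _ ⟨X, Z, μ, Y, w, hX, hYZ, hw, rfl⟩ x hx
    have hX' : X - (μ / 2) • 1 ∈ Submodule.span ℂ {Y | ∃ P ∈ A.NA, Y = Pool.Agent.X306.AV.mt P} := by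
      refine Pool.Agent.X306.AV.span_of_transpose ?_
      rw [Matrix.transpose_sub, Matrix.transpose_smul, Matrix.transpose_one]
      exact hX
    have h1 := Pool.Agent.H936.W.om_exp hPD hS' hG' hbu' hba' hc' hF' hM.path hM.extension hE hn' hHt (by omega) hp
      (hV K hK hKD) (X := X) (μ := μ) hX' ((rel_iff A u q Y Z).1 hYZ) (w := w) (fun χ h1 n h2 => by
        refine hw (χ, n) ⟨fun c hc' => h1 c (by rwa [commutators_eq] at hc'), ?_⟩
        rw [logarithm_eq A]
        exact h2) hx
    have hblock : ∀ X z μ Y w κ, block (g := g') (R := R) (J := J) X z μ Y w κ =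
      Pool.Agent.X306.AV.sm (X, z, μ, Y, w) κ := fun X z μ Y w κ => rfl
    rw [hblock, columns_eq]
    exact h1
  refine ⟨main, ?_⟩
  rintro halg _ ⟨X, Z, μ, Y, w, hX, hYZ, hw, rfl⟩ x hx
  refine main _ ⟨X, Z, μ, Y, w, hX, hYZ, fun s hs => hw s ⟨hs.1, ?_⟩, rfl⟩ x hx
  have h1 : Complex.exp (pairing s.1 (logarithm u e q f L) - (s.2 : ℂ) * (2 * Real.pi * Complex.I)) =
      Complex.exp (pairing s.1 (logarithm u e q f L)) := by
    rw [Complex.exp_sub, Complex.exp_int_mul_two_pi_mul_I, div_one]
  by_contra hne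
  refine Pool.Agent.H340R2.LW.transcendental_cexp _ hs.2 (sub_ne_zero.2 hne) ?_
  rw [h1]
  exact halg s.1 hs.1

/-- **The theorem.** -/
theorem result (g N D : ℕ) (hg : 2 ≤ g) :
    ∃ E : ℕ, ∀ H h w b₀ : ℕ, 2 ≤ H → (H + h + w) ^ E ≤ b₀ →
    -- the polynomials
    ∀ f : Fin N → Polynomial ℤ, (∀ j k, |(f j).coeff k| ≤ H) →
    -- the branch points and the Jacobians of the curves `y² = x f_j(x)`
    ∀ e₀ : Fin N → Fin (2 * g + 1) → ℝ,
      (∀ j, BranchPoints (Polynomial.X * (f j).map (Int.castRingHom ℝ)) (e₀ j)) →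
      (∀ j, ∃ A₀ : AbVar g, Presents A₀ (polB (2 * g)) (curvePeriods (e₀ j))) →
    -- `f_j` is even, or the Jacobian of `y² = x f_j(x)` is special
      (∀ j, (f j).comp (-Polynomial.X) = f j ∨ Special D (polB (2 * g)) (curvePeriods (e₀ j))) →
    -- the parameters `c_j / b_j`
    ∀ (c : Fin N → ℤ) (b : Fin N → ℕ), (∀ j, c j ≠ 0 ∧ |c j| ≤ h) → (∀ j, b₀ ≤ b j ∧ b j ≤ b₀ + w) →
      (∀ i j, i ≠ j → ((H : ℤ) + h) ^ E ≤ |(b i : ℤ) - b j|) →
    -- the branch points of the curves `y² = f_j(x) (x - c_j / b_j)` are real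
    ∃ e₁ : Fin N → Fin (2 * g + 1) → ℝ,
      (∀ j, BranchPoints ((f j).map (Int.castRingHom ℝ) * (Polynomial.X - Polynomial.C ((c j : ℝ) / b j))) (e₁ j)) ∧
    -- and the conclusion holds for all 1-motives over products of the Jacobians of these curves
      ((∀ j, ∃ A : AbVar g, Presents A (polB (2 * g)) (curvePeriods (e₁ j))) →
        Good D fun j => curvePeriods (e₁ j)) := by
  obtain ⟨E, hE⟩ := Pool.Agent.H936.Y.mainV hg (D := max D 2) (le_trans (by norm_num) (le_max_right D 2)) N
  refine ⟨E, fun H h w b₀ hH hbig f hht e₀ he₀ hA₀ hspc c b hc hb hsep => ?_⟩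
  have hg0 : 0 < g := by omega
  have hn : Even (2 * g) := even_two_mul g
  have hHd : IsUnit (polB (2 * g)).det := Pool.Agent.H936.Y.bm_unit hn
  have hHu : IsUnit (polB (2 * g)) := (Matrix.isUnit_iff_isUnit_det _).2 hHd
  have hHt : (polB (2 * g))ᵀ = -polB (2 * g) := Pool.Agent.H936.Y.bm_skew
  choose a m ha h0 hea hf using fun j => Pool.Agent.H936.Y.exists_gap (he₀ j).1 (he₀ j).2
  have hf' : ∀ j, (Pool.Agent.H936.Y.fq (f j)).map (algebraMap ℚ ℝ) = ∏ i, (Polynomial.X - Polynomial.C (a j i)) := by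
    intro j
    rw [← hf j]
    unfold Pool.Agent.H936.Y.fq
    rw [Polynomial.map_map]
    congr 1
  obtain ⟨hgap, hmain⟩ := hE H h w b₀ hH hbig f a m hht ha h0 hf' c b hc hb fun i j hij => by
    have := hsep i j hij
    push_cast
    exact this
  have hC : ∀ j, curvePeriods (e₀ j) = Pool.Agent.Y118.HP.CM (a j) (m j) 0 := by
    intro j
    rw [hea j]
    rfl
  refine ⟨fun j => Pool.Agent.Y118.HP.er (a j) (m j) ((c j : ℝ) / b j), fun j =>
    ⟨Pool.Agent.Y118.HP.er_strictMono (ha j) (hgap j), ?_⟩, fun hA => ?_⟩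
  · rw [Pool.Agent.Y118.HP.prod_er, hf j]
  · refine good_of hg hHu hHt hA fun K hK hKD V hV => ?_
    refine hmain (fun j => ?_) (fun j => ?_) K V hK (hKD.trans (le_max_left D 2)) hV
    · rw [← hC j]
      obtain ⟨A₀, hA₀⟩ := hA₀ j
      rcases hspc j with h1 | h1
      · obtain ⟨R, hR⟩ := pres_of hA₀
        rw [hC j] at hR ⊢
        refine Pool.Agent.H936.Y.centre_special hg0 (le_max_right D 2) (ha j) (h0 j) (hf' j)
          (Pool.Agent.H936.Y.roots_even (ha j) (hf j) hn ?_) hR
        have h2 := congrArg (Polynomial.map (Int.castRingHom ℝ)) h1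
        rwa [Polynomial.map_comp, Polynomial.map_neg, Polynomial.map_X] at h2
      · refine Pool.Agent.H936.X.SpecialC.mono (special_of hg0 hA₀ hHu hHt ?_ h1) (le_max_left D 2)
        rw [hC j]
        exact (Matrix.isUnit_iff_isUnit_det _).2 (Pool.Agent.H936.Y.CM_unit hn (ha j) (h0 j) (hf' j))
    · obtain ⟨A, hA⟩ := hA j
      obtain ⟨R, hR⟩ := pres_of hA
      exact ⟨A, R, hR⟩

end Pool.Agent.Results.MP_5d33ca_ag.OneMotivesHyperelliptic
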