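import Pool.Agent.H943.DP.OneM

set_option autoImplicit false

/-!
# 1-motives over abelian varieties with multiplication by division algebras of prime power degree

Let `A` be an abelian variety over the field `ℚ̄` of algebraic numbers, with a polarization `φ`. Let
`P_i = exp(u_i)` and `Q_l = φ(exp(v_l))` be algebraic points of `A` and of the dual abelian variety,
`G_Q` the extension of `A` by `G_m^s` given by the `Q_l`, and `M = [ℤ^n → G_Q]` a 1-motive over `ℚ̄`
with the images `e_i ↦ R_i` above `P_i`. The periods of `M` are `2 π i`, the periods and
quasi-periods of `A`, the abelian integrals `u_i` and the integrals of the second kind `h_k(u_i)`,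
the periods of the third kind `∑ k, (h_k(v_l) λ_k - v_lk η_k)`, and the integrals of the third kind
`ℓ_il`. The points `R_i` are algebraic, and this means for the logarithms `ℓ_il` that

  `exp(ℓ_il) = q_il · θ(u_i - v_l) / (θ(u_i) θ(-v_l)) · exp(∑ k, h_k(v_l) u_ik)`, `q_il` algebraic:

the function `z ↦ θ(z - v) / (θ(z) θ(-v)) · exp(∑ k, h_k(v) z_k)` is the pullback of a rational
section, over `ℚ̄`, of the extension of `A` by `G_m` given by `v`. We assume that the arguments of
the theta functions are not in the divisor of `θ`. So we get all 1-motives over `A`, up to isogeny.

The motivic Galois group of `M` (a Nori motive) is the Mumford-Tate group `MT(M)` of the mixed Hodge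
structure `H_1(M)` (Brylinski, André): the smallest algebraic group over `ℚ` which contains the image of
the Deligne torus, which acts on the subspaces `I^{p,q}` of `H_1(M, ℂ)` given by Deligne's splitting.

The period conjecture says that the comparison isomorphism is a generic point, over `ℚ̄`, of its
torsor under the motivic Galois group of `M`. A consequence is that every algebraic group
`G ⊆ GL(H_B(M))` over `ℚ`, with a torsor over `ℚ̄` which contains the comparison isomorphism,
contains the group `MT(M)` (in the terminology of André: `Ω^And = Ω^dRB`, for `M` and for all motives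
in the tensor category generated by `M`).

**Theorem.** Let `M` be any 1-motive over `ℚ̄`, with the abelian part `A`, and let `G` be an algebraic
group over `ℚ` with a torsor over `ℚ̄` which contains the comparison isomorphism of `M`. Let `A` be a
direct factor of an abelian variety `C` which has a part given by a division algebra of prime power
degree (`DivisionPart`, see below), with indefinite signatures at the places of a finite set `S`, and let
the part of the Hodge group of `C` which acts trivially on the eigenspaces given by `S` act trivially on
the Mumford-Tate domain of `A` (`DomainOf`).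

1. `G` contains the derived group of `MT(M)`: it contains `exp (t Z)` for all complex
   numbers `t` and all `Z` in the derived algebra of the Lie algebra of `MT(M)` (`mtLie`: the smallest
   Lie algebra of rational matrices whose complex span contains the Lie algebra of the Deligne torus).
2. If moreover the centre of the Lie algebra of the Hodge group of `C` is rigid (`RigidCentre`), then
   `G` contains `MT(M)`.

There is no condition on the points; the deficient 1-motives of Ribet and Jacquinot are included.

**The main example.** Let `F` be an imaginary quadratic field, let `D` be a division algebra over `F` of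
degree `q = p ^ k`, and let `A₁` be a simple abelian variety over `ℚ̄` of dimension `q ^ 2` with multiplication
by `D`, of signature `(r, s)`, `r + s = q`, `r, s ≥ 1`, `r ≠ s` (this is automatic if `p` is odd). These are the
abelian varieties of the Shimura varieties of Kottwitz, Clozel, Harris and Taylor. Then for *all*
1-motives `M` whose abelian part is isogenous to `A₁ ^ k × E₀ ^ m`, where `E₀` is an elliptic curve with
complex multiplication by `F`, the group `G` contains `MT(M)`: so `Ω^And = Ω^dRB` for `M` and for all
motives generated by `M`. Here `C` is a power of `A₁ × E₀`, and `z` is `(√-d, 0)`. (The Hodge group of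
`A₁ × E₀` has a centre of dimension one, and the endomorphism `0` does not generate it in the sense of
`Generates`; so the centre is rigid. The condition on the domain is satisfied since `S` contains the only
place of the totally real subfield.)

For example let `P` be a point of infinite order in `A₁(ℚ̄)`, `M = [ℤ → A₁]`: the Mumford-Tate group is
the semidirect product of `MT(A₁)` and `H_1(A₁, ℚ)`; every group `G` as above contains it.

**The division part** (`DivisionPart`). Let `z` be an element of the centre of `End(C) ⊗ ℚ` which is
skew-symmetric for the polarization, such that every element of the centre is a polynomial in `z` on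
the image of `z`. For example let `C` be isogenous to `C₁ ^ k × C₂`, `C₁` simple,
`Hom(C₁, C₂) = 0`, let the centre of `End(C₁) ⊗ ℚ` be a CM field `F`, and `z ∈ F` a generator with
`z̄ = - z`. Let `B` be the algebra of the endomorphisms of the rational vector space `H_1(C, ℚ)` which
commute with `End(C)`, cut down to the image of `z`: a central simple algebra over `F`. Let `S` be a
finite set of real numbers `a ≠ 0`, `S` and `- S` disjoint, such that both `i a` and `- i a` are
eigenvalues of `z` on the tangent space of `C`: so `S` is a set of places of `F` at which the unitary
group of `B` is not compact, of a signature `(r_a, s_a)` with `r_a, s_a ≥ 1`. We assume: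

* `B` is a division algebra over `F` of degree `q = p ^ k`, a power of a prime number `p`; the integers
  `r_a ≥ 1`, `s_a ≥ 1` with `r_a + s_a = q` are arbitrary;
* the exponent of `B` is equal to its degree (`HasExponent`: if there are `N` pairwise commuting
  representations of `B` on one vector space over `F` of dimension at most `q ^ N`, then `q` divides
  `N`). *This is always true*, by the theorem of Albert, Brauer, Hasse and Noether, since `F` is a
  number field;
* if `B₁ ⊆ B` is a `ℚ`-algebra with `B = B₁ F`, then the elements of `F` in `B₁`
  separate `± i a` and `± i b` for different `a`, `b` in `S` (no condition if `S` has one element).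

The case that `q` is a prime number is contained in `UnitaryOneMotives` (helper208), whose method stops
at prime degrees. New is the following theorem (`Pool.Agent.H943.DP.thmA`), which is the subject of the
files `Pool/Agent/H943/DP/`:

*Theorem A. Let `B` be a central division algebra over a field `F` of characteristic zero, of degree
`q = p ^ k` and exponent `q`. Every `F`-subspace of `B` which is closed under commutators and generates
`B` as an algebra contains all commutators of elements of `B`.*

Nothing is assumed about periods: `AbVar` and `AbVarG` are descriptions of abelian varieties over `ℚ̄`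
by theta functions (see `Pool/Agent/Y102/AVDefs.lean`), and the transcendence theorems which are used,
the theorem of Schneider and Lang and the transcendence of `π`, are proved in this repository. The group
`G` is not assumed to be reductive.

## Proof

The image `𝔥` of the Lie algebra of `G` in the endomorphisms of `H_1(A, ℚ)`, up to the weights,
contains the logarithmic derivatives of the periods of `A`. Let `𝔮` be the Lie algebra of the
elements of the Lie algebra of the Hodge group of `C` whose restriction to `H_1(A, ℚ)` is in `𝔥`. It
acts semisimply on `H_1(C, ℚ)`, with the commutant `End(C) ⊗ ℚ`. So `F 𝔮` generates `B` on the image of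
`z`, and by Theorem A it contains all commutators of `B`; it follows that `[𝔮, 𝔮] ⊗ ℝ` has the image
`∏ su(r_a, s_a)` on the eigenspaces for `± i a`, `a ∈ S` (`Pool.Agent.H943.DP.rpartDq`). The argument on
real Lie algebras and on 1-motives of helper208 (`Pool.Agent.N208.OU`) shows that the complex
structure of `H_1(A, ℝ)` is the restriction of an element of `(𝔷 + [𝔮, 𝔮]) ⊗ ℝ`, `𝔷` the centre of
the Lie algebra of the Hodge group of `C`, and the theorems follow from this.
-/

open Module Matrix Pool.Agent.Y102 Pool.Agent.R917.OM Pool.Agent.N208.OneM

noncomputable section

namespace Pool.Agent.Results.MP_5d33ca_ag.OneMotivesPrimePower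

section Part

variable {g : ℕ} (C : AbVar g)

/-- The degree over `ℚ` of the field `F = ℚ[z]` (on the image of `z`): the dimension of the space of
the `f(z) z`, `f` a polynomial. -/
def centreDegree (z : EndQ C) : ℕ := Set.finrank ℚ {Y | ∃ X f, IsPoly C z X f ∧ Y = X * z}

/-- `φ` is a representation by rational matrices with `r` rows of the algebra `B` of the restrictions to
the image of `z` of the endomorphisms `X` of `H_1(C, ℚ)` which commute with the endomorphisms of `C`. -/
structure IsRepresentation (z : EndQ C) {r : ℕ} (φ : EndQ C → Matrix (Fin r) (Fin r) ℚ) : Prop where
  add : ∀ X Y, Commutes C X → Commutes C Y → φ (X + Y) = φ X + φ Y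
  mul : ∀ X Y, Commutes C X → Commutes C Y → φ (X * Y) = φ X * φ Y
  one : φ 1 = 1
  restriction : ∀ X, Commutes C X → X * z = 0 → φ X = 0

/-- **The exponent** of the division algebra `B` over `F = ℚ[z]` is a multiple of `q`: if there are `N`
pairwise commuting representations of `B`, which agree on `z`, so on `F`, in a vector space of
dimension `r`, `0 < r ≤ q ^ N [F : ℚ]` (it is a vector space over `F` of dimension at most `q ^ N`, and
a representation of the tensor product over `F` of `N` copies of `B`, which is then a matrix
algebra over `F`), then `q` divides `N`. If `q` is the degree of `B`, this is always true, by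
the theorem of Albert, Brauer, Hasse and Noether. -/
def HasExponent (z : EndQ C) (q : ℕ) : Prop :=
  ∀ N r : ℕ, 0 < N → 0 < r → r ≤ q ^ N * centreDegree C z →
    ∀ φ : Fin N → (EndQ C → Matrix (Fin r) (Fin r) ℚ),
    (∀ i, IsRepresentation C z (φ i)) →
    (∀ i j, i ≠ j → ∀ X Y, Commutes C X → Commutes C Y → φ i X * φ j Y = φ j Y * φ i X) →
    (∀ i j, φ i z = φ j z) → q ∣ N

/-- **A unitary part** given by a division algebra of prime power degree `q`, with indefinite signatures at
the places of the finite set `S`. -/
structure DivisionPart (z : EndQ C) (S : Finset ℝ) (q : ℕ) : Prop where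
  /-- `z` is central and skew-symmetric and it generates the centre on its image -/
  part : CentralPart C z
  /-- the numbers `i a`, `a ∈ S`, are different from zero and not conjugate to each other -/
  disjoint : ∀ a ∈ S, a ≠ 0 ∧ -a ∉ S
  /-- `i a` and `- i a` are eigenvalues of `z` on the tangent space -/
  indefinite : ∀ a ∈ S, (∃ x, x ≠ 0 ∧ Eigen C z a x) ∧ ∃ x, x ≠ 0 ∧ Eigen C z (-a) x
  /-- the commutant of the endomorphisms is a division algebra on the image of `z` -/
  division : IsDivision C z
  /-- the degree `q` of this division algebra over its centre `ℚ[z]` is a power of a prime number -/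
  primePower : IsPrimePow q
  degree : HasDegree C z q
  /-- the exponent is equal to the degree (always true) -/
  exponent : HasExponent C z q
  /-- the separation -/
  separated : ∀ a b : ℝ, (a ∈ S ∨ -a ∈ S) → (b ∈ S ∨ -b ∈ S) → a ≠ b → a ≠ -b →
    Separates C z a b

theorem centre_eq (z : EndQ C) : centreDegree C z =
    finrank ℚ ((Algebra.adjoin ℚ {z}).toSubmodule.map (LinearMap.mulRight ℚ z)) := by
  have e2 : Submodule.span ℚ {Y : EndQ C | ∃ X q, IsPoly C z X q ∧ Y = X * z} =
      (Algebra.adjoin ℚ {z}).toSubmodule.map (LinearMap.mulRight ℚ z) := by
    refine le_antisymm (Submodule.span_le.2 ?_) ?_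
    · rintro _ ⟨X, q, hX, rfl⟩
      have h1 : X * z = LinearMap.mulRight ℚ z (Polynomial.aeval z q) := hX
      rw [h1]
      refine Submodule.mem_map_of_mem (f := LinearMap.mulRight ℚ z) ?_
      exact Polynomial.aeval_mem_adjoin_singleton ℚ z
    · rintro _ ⟨X, hX, rfl⟩
      have hX' : X ∈ Algebra.adjoin ℚ {z} := hX
      rw [Algebra.adjoin_singleton_eq_range_aeval] at hX'
      obtain ⟨q, hq⟩ := hX'
      refine Submodule.subset_span ⟨X, q, ?_, rfl⟩
      have h2 : Polynomial.aeval z q = X := hq
      show X * z = Polynomial.aeval z q * z
      rw [h2]
  unfold centreDegree Set.finrank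
  rw [e2]

theorem DivisionPart.toHD {z : EndQ C} {S : Finset ℝ} {q : ℕ} (h : DivisionPart C z S q) :
    H943.DP.HDq C z S q where
  mem := C.mem_EA.2 h.part.endo
  cen := fun P hP => h.part.central P (C.mem_EA.1 hP)
  skew := h.part.skew
  gen := fun P hP hc => h.part.generates P (C.mem_EA.1 hP) fun Q hQ => hc Q (C.mem_EA.2 hQ)
  ne := fun a ha => (h.disjoint a ha).1
  e1 := fun a ha => (h.indefinite a ha).1
  e2 := fun a ha => (h.indefinite a ha).2
  disj := fun a ha => (h.disjoint a ha).2
  sep := fun B₁ h2 h3 a b ha hb hab hab' => by
    obtain ⟨q, X, hX, h4⟩ := h.separated a b ha hb hab hab' B₁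
      (fun X hX => (comm_iff C X).2 (h2 X hX)) fun X hX => h3 X ((comm_iff C X).1 hX)
    exact ⟨q, X, (alg_eq C B₁).1 hX, h4⟩
  pd := by
    refine ⟨h.primePower, fun X hX h0 v hv => ?_, deg_eq C h.degree, ?_⟩
    · rcases h.division X ((comm_iff C X).2 hX) with h1 | h1
      · exact h1 v hv
      · exact absurd (LinearMap.ext fun v => h1 v) h0
    · intro N r hN hr hle φ h1 h2 h3
      rw [← centre_eq] at hle
      exact h.exponent N r hN hr hle φ (fun i =>
        ⟨fun X Y hX hY => (h1 i).add X ((comm_iff C X).1 hX) Y ((comm_iff C Y).1 hY),
          fun X Y hX hY => (h1 i).mul X ((comm_iff C X).1 hX) Y ((comm_iff C Y).1 hY),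
          (h1 i).one, fun X hX => (h1 i).zero X ((comm_iff C X).1 hX)⟩)
        (fun i j hij X Y hX hY => h2 i j hij X ((comm_iff C X).1 hX) Y ((comm_iff C Y).1 hY)) h3

end Part

/-- **Theorem.** Let `M` be a 1-motive over `ℚ̄` with the abelian part `A`, and let `G` be an algebraic
group over `ℚ` with a torsor over `ℚ̄` which contains the comparison isomorphism of `M`. Let `A` be a
direct factor of an abelian variety `C` with a part given by a division algebra of prime power degree
`q`, with indefinite signatures at the places of `S`, such that the part of the Hodge group of `C` which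
acts trivially on the eigenspaces for `± i a`, `a ∈ S`, acts trivially on the Mumford-Tate domain of `A`.

1. `G` contains `exp (t Z)` for all complex numbers `t` and all `Z` in the derived algebra of the Lie
   algebra of the Mumford-Tate group of `M`.
2. If moreover the centre of the Lie algebra of the Hodge group of `C` is rigid, then the Mumford-Tate
   group of `M` is contained in `G`. -/
theorem result (g n s : ℕ) (A : AbVarG g) (u : Fin n → Fin g → ℂ) (v : Fin s → Fin g → ℂ)
    (ℓ : Fin n → Fin s → ℂ) (hM : IsOneMotive A u v ℓ)
    (G : Subgroup (GL (Betti g n s) ℂ)) (hG : IsAlgebraicSubgroup G)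
    (hP : ContainsPeriods A u v ℓ G) (g' : ℕ) (C : AbVar g') (f : A.toAbVar.H1 →ₗ[ℚ] C.H1)
    (p : C.H1 →ₗ[ℚ] A.toAbVar.H1) (hF : IsFactor A.toAbVar C f p) (z : EndQ C) (S : Finset ℝ)
    (q : ℕ) (hU : DivisionPart C z S q) (hD : DomainOf A.toAbVar C f p z S) :
    (∀ Z ∈ derived (mtLie A u v ℓ), ∀ t : ℂ, IsIn G (NormedSpace.exp (t • cplx Z))) ∧
      (RigidCentre C → mumfordTate A u v ℓ ≤ G) := by
  have hz : z ∈ C.EA := C.mem_EA.2 hU.part.endo
  have hRP := H943.DP.rpartDq (hU.toHD C)
  exact ⟨fun Z hZ t => H943.DP.OM.two_g hM hG hP hF hz hRP hD hZ t,
    fun hR => H943.DP.OM.three_g hM hG hP hF hz hRP hD hR⟩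

end Pool.Agent.Results.MP_5d33ca_ag.OneMotivesPrimePower
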