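import Mathlib
import Pool.Agent.H298.Core.TorsorA
import Pool.Agent.H298.Core.Main
import Pool.Graph.R_pool_sql_team_seeded_64922ed1.Results.MP_12eca1_ag.OneMotivesTypeA1
import Pool.Agent.H298.Core.DoubleFactMain

/-!
# 1-motives over products of abelian varieties of type `A_1` and of CM type with small cores: the de
Rham-Betti torsor is motivic

Let `M = [ℤ^R → G]` be a 1-motive over the field `ℚ̄` of algebraic numbers, where `G` is an
extension of an abelian variety `A` by `𝔾ₘ^J`, given by points `Q_j ∈ A(ℚ̄)` (`j ∈ J`) with
logarithms `q_j`, and the 1-motive is given by points `P̃_r ∈ G(ℚ̄)` (`r ∈ R`) over points `P_r ∈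
A(ℚ̄)` with logarithms `u_r`. Every 1-motive over `ℚ̄` has this form. We use the description of the
library (`MP_12eca1_ag.OneMotivesTypeA1`): the abelian variety `A`, of dimension `g`, is given by
theta functions (`AbVar`), and the periods of `M` are the entries of the matrix `periodMatrix` with
the rows

* `(λ_{ik} | η_{ik} | ∑_k (f_{jk} λ_{ik} - η_{ik} q_{jk}) | 0)` for a lift to `G` of the cycle `i`
  of `A`;
* `(0 | 0 | 2πi δ_{jj'} | 0)` for the circles of the torus;
* `(u_{rk} | e_{rk} | L_{rj} | δ_{rr'})` for a path from `0` to `P̃_r` in `G`,

and the columns: the differentials of the first kind `dz_k`, of the second kind `d (∂_k log θ₀)`, of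
the third kind, and the differentials of degree zero. The points `P_r`, `Q_j` can be arbitrary; if
they satisfy relations, the paths and the differentials are normalised in such a way that the
vectors `(u_r, e_r)`, `(q_j, f_j)` satisfy the same relations (hypothesis `hn`). **Nothing is
assumed about periods or Hodge classes.**

**The abelian part.** Let `𝔤` be the Lie algebra of the endomorphisms of `H_1(A, ℚ)` which
annihilate all classes on the powers of `A` which are Hodge classes and de Rham-Betti classes
(`InLie`); by Deligne's theorem this is the Lie algebra of the Hodge group of `A`. We assume that `𝔤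
⊗ ℂ` is the sum of its centre, **of any dimension**, and of algebras `sl(2)` which act on each
irreducible component of `H_1(A, ℂ)` by a tensor product of standard representations of some of them
(`TypeA1`), and that the simple factors of type IV have complex multiplication by CM fields `E i`
(`TypeIVPart`): the algebra of the endomorphisms of `A` which are central and skew-symmetric for the
polarization is generated by one of them, `Y₀`; its minimal polynomial is (up to the factor `T`, if
there are factors which are not of type IV) the product of the minimal polynomials `p i` of
generators `y i` of the fields `E i` (`HasFields`), and on the image of `Y₀` the endomorphisms of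
`H_1(A, ℚ)` which commute with all endomorphisms of `A` commute with each other. For every `i` some
automorphism of `ℂ` conjugates all embeddings of `E i` and fixes all embeddings of the `E j`, `j ≠
i` (no condition if there is only one field). For example `A` is the product of an abelian variety
of CM type and of

* any number of elliptic curves, of abelian surfaces with quaternionic multiplication, and of
  abelian varieties of dimension `e` or `2 e` with multiplication by a totally real field of degree
  `e` or a totally indefinite quaternion algebra over it; or
* a power of an abelian fourfold of Mumford with Hodge group a form of `SL(2) ^ 3`, which acts by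
  `V_1 ⊗ V_2 ⊗ V_3`, or of their generalizations with `SL(2) ^ n`, `n` odd.

**Cores.** Let `E` be a CM field of degree `2 g`, `X` the set of its complex embeddings. The
automorphisms of `ℂ` which map all elements of `X` to themselves or to their complex conjugates are
called sign changes. The first core of `φ : X` consists of the `ψ : X` which are moved by the same
sign changes as `φ`. If one uses all automorphisms which map the elements of the first core to
themselves or to their conjugates, one obtains the second core, inside of the first one, and so on
(`coreOf`). The cores of the same index have the same number `2 c` of elements, and `c` divides `g`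
(`c = g` is possible). A core is primitive (`PrimitiveCore`) if `c` is a prime number, or if `c = [E
: F]` for a subfield `F`, not totally real, such that the automorphisms of `ℂ` act doubly
transitively on the extensions to `E` of an embedding of `F`. If `c = 1` then the odd rational
functions on `X` are an irreducible representation of the automorphisms of `ℂ` (`OddIrreducible`).
The hypothesis on the fields `E i` is `RealCore`: the odd part of `E i` is irreducible, or `E i` has
a primitive core with `c` pairs, and `c = 2` or all subfields `F` with `[E i : F] = c` are totally
real (that is, none of them is a CM field). Part three of the theorem (`AllFacts`) contains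
criteria. Let `2 ^ v` be the degree of the Galois closure of `E` over the Galois closure of its
maximal real subfield `E₀` (typically `v = g`). Then there is a core with `c ≤ g / v` pairs. **If `v
> g / 3` then the odd part of `E` is irreducible or there is a core with two pairs; if the Galois group
of `E₀` is doubly transitive, and `g` is odd, or `g - 1` is a prime number, or at least `g` is none of
the numbers `10, 16, 26, 28, 36, …` (`TwoGraphDegree`), or if it is triply transitive and `g ≥ 3`
(for example the symmetric group, or the alternating group if `g ≥ 5`), and `E` contains no imaginary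
quadratic field, then the odd part of `E` is irreducible.** If `v > g / 4`, or if `v > 1` and `g` is the product of two prime numbers, or
generally if `E` has few divisors (`FewDivisors`, a condition on `g`, `v` and the discriminants)
then there is a core with `c = 1` or `c` prime.

**The Lie algebra of the motivic Galois group.** The motivic Galois group of a 1-motive is its
Mumford-Tate group (Brylinski, André), and the Lie algebra of the Mumford-Tate group of `A` is the
sum of `𝔤` and the scalars. With the structure of the unipotent radical (Ribet, Bertrand, Bertolin,
Jossen) one finds that the Lie algebra of the motivic Galois group consists of the block matrices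
`(X, z, 0; 0, μ, 0; Y, w, 0)` such that

* the transpose of `X` (this is the action on columns) is in `μ / 2 + 𝔤 ⊗ ℂ`;
* `z` consists of the columns `γ ↦ ω(Z_j, γ)` for the Riemann form `ω`, and `(Y, Z)` satisfies all
  relations `∑ E_r P_r + ∑ E'_j Q_j = 0`, `E_r, E'_j ∈ End A`;
* `∑ χ_{rj} w_{rj} = n μ` for all central `χ` with `∑ χ_{rj} ℓ_{rj} = 2πi n`, `n ∈ ℤ`. Here `ℓ` is
  the part of weight `-2` of the logarithm of the period matrix, and an integral matrix `χ` is
  central if `∑ χ_{rj} c_{rj} = 0` for all commutators `c`. For central `χ` the number `exp (∑
  χ_{rj} ℓ_{rj})` is algebraic (it is the value of a section of a trivial line bundle at the point).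

This is `motivicLie` for the set of pairs `(χ, n)` as above.

**Theorem.** Let `T` be a `ℚ̄`-subtorsor of `Iso(M_dR, M_B)` which contains the period matrix and
whose group (the matrices `x y⁻¹`, `x, y ∈ T`) is defined over `ℚ`; for example the de Rham-Betti
torsor of `M`, the smallest one. Then `T` is stable under `exp W` for all `W` in the Lie algebra of
the motivic Galois group (2). So **`T` contains the torsor of motivic periods**; in particular
`Ω^dRB(M) = Ω^mot(M)`, the de Rham-Betti group of `M` has the dimension `dim G_mot(M)` that the
conjecture predicts for the transcendence degree, and every de Rham-Betti class of every motive in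
the tensor category generated by `M` is motivated. (1) is a statement for arbitrary complex numbers
`L_{rj}`.

**What was known.** The library has this theorem for abelian varieties of type `A_1` if in addition
the centre of `𝔤` is rigid (`RigidCentre`, a hypothesis on the eigenvalues of the elements of `𝔤`,
for example if the centre is zero or of dimension one). It is shown here that the centre is rigid if
the fields `E i` have small cores: in particular the theorem holds for all 1-motives whose abelian
part has complex multiplication by such fields, of all dimensions, where only the unipotent part of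
the statement was known (`AllOneMotives`).

## Proof

Let `X` be an element of the centre of `𝔤` which generates it: endomorphisms which commute with `X`
and with the commutators in `𝔤` commute with the centre of `𝔤`. The algebra generated by `𝔤` acts on
the type IV part by polynomials in `Y₀`, and contains `Y₀`; it follows that `X = f(Y₀)` has
different values at all embeddings of the `E i`. One has to show that the relations `∑ f(x_k) = 0`
between the conjugates imply `∑ h(x_k) = 0` for all odd polynomials `h`. Some `ℚ`-linear function `ℂ
→ ℚ` has different values at the `f(φ (y i))`; so we obtain a function `w` on the embeddings, odd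
and injective with rational values, such that `n(s)`, the multiplicity of `s` minus the one of `-
s`, is orthogonal to all conjugates of `w`. By sign changes one can cut `n` down to a relation which
is supported in one core. If `c` is prime, a Sylow subgroup of the stabilizer of the core contains
an element with two orbits of length `c` on the core, exchanged by the complex conjugation, and by
the irreducibility of the cyclotomic polynomial `n` is constant on these orbits; in the doubly
transitive case one averages over a stabilizer. The orbit consists of the extensions of an embedding
of a subfield `F` with `[E : F] = c`, which is not totally real: a contradiction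
(`structure_of_separating`, `rigid_core`).
-/

set_option autoImplicit false

open Module Matrix Polynomial Pool.Agent.Y102 Pool.Agent.W516.DR Pool.Agent.H204R3.GP
open NumberField Pool.Agent.H298.Core
open Pool.Agent.Results.MP_12eca1_ag.OneMotivesTypeA1

noncomputable section

namespace Pool.Agent.Results.MP_5d33ca_ag.SmallCoreOneMotives

variable {g : ℕ} (A : AbVar g)

/-! ### Endomorphisms -/

/-- `P` is an endomorphism of `A` (up to isogeny), in terms of its action on `H_1(A, ℚ)`: it respects
the de Rham structure. (By the theorem of Bost, which is proved in `Pool.Agent.Y102.AbVar.hodge_end`,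
these are the elements of `End(A) ⊗ ℚ`.) -/
def IsEndomorphism (P : Module.End ℚ A.H1) : Prop := IsDeRhamBettiEnd QBar A.dR P

/-- The endomorphism `X` of `H_1(A, ℚ)` commutes with the endomorphisms of `A`. -/
def Commutes (X : Module.End ℚ A.H1) : Prop := ∀ Q, IsEndomorphism A Q → X * Q = Q * X

/-- The Riemann form of the polarization, on the rational homology. -/
def polarization : A.H1 →ₗ[ℚ] A.H1 →ₗ[ℚ] ℚ := A.om

/-- `X` is skew-symmetric for the polarization. -/
def IsSkewSymmetric (X : Module.End ℚ A.H1) : Prop :=
  ∀ u v, polarization A (X u) v + polarization A u (X v) = 0

/-- `R` is an endomorphism which is skew-symmetric and central in the algebra of endomorphisms. -/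
def IsCentralSkew (R : Module.End ℚ A.H1) : Prop :=
  IsEndomorphism A R ∧ IsSkewSymmetric A R ∧ ∀ Q, IsEndomorphism A Q → R * Q = Q * R

/-- The central skew-symmetric endomorphisms are polynomials in one of them, `Y`, and the
endomorphisms of `H_1(A, ℚ)` which commute with the endomorphisms of `A` commute with each other on the
image of `Y`: the simple factors of type IV have complex multiplication. -/
structure TypeIVPart (Y : Module.End ℚ A.H1) : Prop where
  central : IsCentralSkew A Y
  generates : ∀ R, IsCentralSkew A R → R ∈ Algebra.adjoin ℚ {Y}
  commutative : ∀ X X', Commutes A X → Commutes A X' → (X * X' - X' * X) * Y = 0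

/-- The minimal polynomial of `Y` is, up to the factor `T`, the product of the minimal polynomials
`p i` of the generators `y i` of the CM fields `E i`, and for every `i` some automorphism of the
complex numbers changes the sign of all roots of `p i` and fixes all roots of the `p j`, `j ≠ i`. -/
structure HasFields (Y : Module.End ℚ A.H1) {k : ℕ} (p : Fin k → ℚ[X]) (E : Fin k → Type)
    [∀ i, Field (E i)] [∀ i, NumberField (E i)] [∀ i, IsCMField (E i)] (y : ∀ i, E i) : Prop where
  defines : ∀ i, Defines (p i) (E i) (y i)
  factor : ∀ i, p i ∣ minpoly ℚ Y
  minpoly_dvd : minpoly ℚ Y ∣ X * ∏ i, p i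
  independent : ∀ i, ∃ σ : ℂ ≃+* ℂ, (∀ z, aeval z (p i) = 0 → σ z = -z) ∧
    ∀ j, j ≠ i → ∀ z, aeval z (p j) = 0 → σ z = z

/-! ### Translations -/

theorem mem_ZA (R : Module.End ℚ A.H1) : R ∈ A.ZA ↔ IsCentralSkew A R := by
  constructor
  · rintro ⟨h1, h2, h3⟩
    exact ⟨A.mem_EA.1 h1, h2, fun Q hQ => h3 Q (A.mem_EA.2 hQ)⟩
  · rintro ⟨h1, h2, h3⟩
    exact ⟨A.mem_EA.2 h1, h2, fun Q hQ => h3 Q (A.mem_EA.1 hQ)⟩

variable {A}

theorem TypeIVPart.centre {Y : Module.End ℚ A.H1} (h : TypeIVPart A Y) : CMCentre A Y where
  mem := (mem_ZA A Y).2 h.central
  gen := fun R hR => h.generates R ((mem_ZA A R).1 hR)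
  comm := fun X X' hX hX' => h.commutative X X' (fun Q hQ => hX Q (A.mem_EA.2 hQ))
    fun Q hQ => hX' Q (A.mem_EA.2 hQ)

theorem HasFields.fields {Y : Module.End ℚ A.H1} {k : ℕ} {p : Fin k → ℚ[X]} {E : Fin k → Type}
    [∀ i, Field (E i)] [∀ i, NumberField (E i)] [∀ i, IsCMField (E i)] {y : ∀ i, E i}
    (h : HasFields A Y p E y) : Fields (minpoly ℚ Y) p E y :=
  ⟨h.defines, h.factor, h.minpoly_dvd, h.independent⟩

theorem rigidCentre {Y : Module.End ℚ A.H1} {k : ℕ} {p : Fin k → ℚ[X]} {E : Fin k → Type}
    [∀ i, Field (E i)] [∀ i, NumberField (E i)] [∀ i, IsCMField (E i)] {y : ∀ i, E i}
    (hY : TypeIVPart A Y) (hE : HasFields A Y p E y) (hC : ∀ i, RealCore (E i)) :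
    RigidCentre A := by
  intro X hX hgen Z hZ r v x y' hv hs
  have h0 := rigid_core hY.centre hE.fields hC
  have h1 : Dom X Z := h0 X ⟨hX.1, hX.2⟩ (fun T hT hTX W hW =>
    hgen T (fun Y' Z' hY' hZ' => hT Y' hY' Z' hZ') hTX W ⟨hW.1, hW.2⟩) Z ⟨hZ.1, hZ.2⟩
  exact dom_matrix h1 v x y' (fun k => (hv k).1) (fun k => (hv k).2.1) (fun k => (hv k).2.2) hs

/-- **1-motives over abelian varieties whose type IV part has complex multiplication by fields with
small cores.** `A` is an abelian variety over the algebraic numbers, defined over the number field `F`
together with its endomorphisms; the `u r` and `q j` are logarithms of arbitrary points `P_r`, `Q_j` of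
`A(F)`, the vectors `(u r, e r)` and `(q j, f j)` are normalised: they satisfy the relations of the
points. Let `T` be a subtorsor over the algebraic numbers which contains the period matrix and whose
group is defined over `ℚ`. -/
theorem result {g : ℕ} {R : Type} [Fintype R] [DecidableEq R] {J : Type} [Fintype J]
    [DecidableEq J] (A : AbVar g) (hA : TypeA1 A)
    (Y₀ : Module.End ℚ A.H1) {k : ℕ} (p : Fin k → ℚ[X]) (E : Fin k → Type)
    [∀ i, Field (E i)] [∀ i, NumberField (E i)] [∀ i, IsCMField (E i)] (y : ∀ i, E i)
    (hY : TypeIVPart A Y₀) (hE : HasFields A Y₀ p E y) (hC : ∀ i, RealCore (E i))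
    (F : IntermediateField ℚ ℂ) (hF : DefinedOver A F) (u e : R → Fin g → ℂ)
    (hu : ∀ r, u r ∈ points A F) (q f : J → Fin g → ℂ) (hq : ∀ j, q j ∈ points A F)
    (hn : IsRelated A u q (coordinates A u e) (coordinates A q f)) (L : Matrix R J ℂ)
    (T : Set (Matrix (Idx g R J) (Idx g R J) ℂ)) (hT : IsTorsor T) (hG : GroupOverQ T)
    (hc : periodMatrix A u e q f L ∈ T) :
    -- 1: arbitrary `L`
    (∀ W ∈ motivicLie A u q {s | IsCentral A u q s.1 ∧
        IsAlgebraic ℚ (pairing s.1 (logarithm u e q f L) - (s.2 : ℂ) * (2 * Real.pi * Complex.I))},
      ∀ x ∈ T, NormedSpace.exp W * x ∈ T) ∧
    -- 2: the 1-motives over the algebraic numbers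
    ((∀ χ, IsCentral A u q χ → IsAlgebraic ℚ (Complex.exp (pairing χ (logarithm u e q f L)))) →
      ∀ W ∈ motivicLie A u q {s | IsCentral A u q s.1 ∧
        pairing s.1 (logarithm u e q f L) = (s.2 : ℂ) * (2 * Real.pi * Complex.I)},
      ∀ x ∈ T, NormedSpace.exp W * x ∈ T) ∧
    -- 3: fields with small cores
    AllFacts := by
  obtain ⟨h1, h2⟩ := Pool.Agent.Results.MP_12eca1_ag.OneMotivesTypeA1.result A hA
    (rigidCentre hY hE hC) F hF u e hu q f hq hn L T hT hG hc
  exact ⟨h1, h2, allFacts_hold⟩

end Pool.Agent.Results.MP_5d33ca_ag.SmallCoreOneMotives
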